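import Mathlib
import Pool.Agent.H95.VG.Targets2

/-!
# VG board, module KER: the radial averaging kernel
-/

open MeasureTheory Set Filter Topology
open scoped ENNReal NNReal ContDiff ComplexConjugate

namespace Pool.Agent.H62.VG

open Pool.Agent.H95.VG

variable {n : ℕ}

/-! ### `nsq` -/

lemma nsq_contDiff : ContDiff ℝ ∞ (nsq (n := n)) := by
  unfold nsq
  apply ContDiff.sum
  intro i _
  exact ContDiff.norm_sq ℝ (contDiff_apply ℝ ℂ i)

lemma nsq_hasFDerivAt (z : V n) : HasFDerivAt (nsq (n := n)) (fderiv ℝ (nsq (n := n)) z) z :=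
  ((nsq_contDiff.differentiable (by simp)) z).hasFDerivAt

lemma nsq_fderiv (z v : V n) : fderiv ℝ (nsq (n := n)) z v = 2 * ∑ i, (conj (z i) * v i).re := by
  have h1 : ∀ i : Fin n, HasFDerivAt (fun z : V n => ‖z i‖ ^ 2) _ z := fun i =>
    ((ContinuousLinearMap.proj (R := ℝ) (φ := fun _ : Fin n => ℂ) i).hasFDerivAt (x := z)).norm_sq
  have h2 : HasFDerivAt (nsq (n := n)) _ z :=
    HasFDerivAt.fun_sum (u := Finset.univ) fun i _ => h1 i
  rw [h2.fderiv]
  simp only [sum_apply, Finset.mul_sum]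
  apply Finset.sum_congr rfl
  intro i _
  simp [Complex.inner, mul_comm]
  ring

lemma nsq_fderiv_ek (z : V n) (k : Fin n) :
    fderiv ℝ (nsq (n := n)) z (ek k) = 2 * (z k).re := by
  rw [nsq_fderiv, Finset.sum_eq_single k]
  · simp [ek]
  · intro j _ hj
    simp [ek, Pi.single_eq_of_ne hj]
  · intro h; exact absurd (Finset.mem_univ k) h

lemma nsq_fderiv_Iek (z : V n) (k : Fin n) :
    fderiv ℝ (nsq (n := n)) z (Complex.I • ek k) = 2 * (z k).im := by
  rw [nsq_fderiv, Finset.sum_eq_single k]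
  · simp [ek]
  · intro j _ hj
    simp [ek, Pi.single_eq_of_ne hj]
  · intro h; exact absurd (Finset.mem_univ k) h

lemma nsq_nonneg (z : V n) : 0 ≤ nsq z := Finset.sum_nonneg fun i _ => by positivity

lemma norm_sq_le_nsq (z : V n) : ‖z‖ ^ 2 ≤ nsq z := by
  have h : ‖z‖ ≤ Real.sqrt (nsq z) := by
    rw [pi_norm_le_iff_of_nonneg (Real.sqrt_nonneg _)]
    intro i
    apply Real.le_sqrt_of_sq_le
    exact Finset.single_le_sum (f := fun i => ‖z i‖ ^ 2) (fun i _ => by positivity)
      (Finset.mem_univ i)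
  calc ‖z‖ ^ 2 ≤ Real.sqrt (nsq z) ^ 2 := by gcongr
    _ = nsq z := Real.sq_sqrt (nsq_nonneg z)

lemma nsq_smul (c : ℂ) (z : V n) : nsq (c • z) = ‖c‖ ^ 2 * nsq z := by
  unfold nsq
  rw [Finset.mul_sum]
  apply Finset.sum_congr rfl
  intro i _
  rw [Pi.smul_apply, smul_eq_mul, norm_mul, mul_pow]

lemma nsq_smul_real (c : ℝ) (z : V n) : nsq (c • z) = c ^ 2 * nsq z := by
  unfold nsq
  rw [Finset.mul_sum]
  apply Finset.sum_congr rfl
  intro i _
  rw [Pi.smul_apply, norm_smul, mul_pow, Real.norm_eq_abs, sq_abs]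

lemma nsq_zero : nsq (0 : V n) = 0 := by simp [nsq]

lemma norm_le_one_of_nsq {z : V n} (h : nsq z ≤ 1) : ‖z‖ ≤ 1 := by
  have h1 := norm_sq_le_nsq z
  have h2 : ‖z‖ ^ 2 ≤ 1 ^ 2 := by rw [one_pow]; linarith
  exact (pow_le_pow_iff_left₀ (norm_nonneg z) zero_le_one two_ne_zero).1 h2

/-- coordinates -/
lemma decomp (z : V n) : z = ∑ k, ((z k).re • ek k + (z k).im • (Complex.I • ek k)) := by
  funext i
  rw [Finset.sum_apply, Finset.sum_eq_single i]
  · simp only [Pi.add_apply, Pi.smul_apply, ek, Pi.single_eq_same, smul_eq_mul,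
      Complex.real_smul, mul_one]
    exact (Complex.re_add_im (z i)).symm
  · intro j _ hj
    simp [ek, Pi.single_eq_of_ne hj.symm]
  · intro h; exact absurd (Finset.mem_univ i) h

lemma apply_decomp (L : V n →L[ℝ] ℝ) (z : V n) :
    L z = ∑ k, ((z k).re * L (ek k) + (z k).im * L (Complex.I • ek k)) := by
  conv_lhs => rw [decomp z]
  rw [map_sum]
  apply Finset.sum_congr rfl
  intro k _
  rw [map_add, map_smul, map_smul, smul_eq_mul, smul_eq_mul]

/-! ### the kernels -/

/-- the one variable profile -/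
noncomputable def kk (c t : ℝ) : ℝ := c * expNegInvGlue (1 - t)

noncomputable def K0 (c t : ℝ) : ℝ := 1 / 2 * ∫ τ in t..1, kk c τ

lemma kk_contDiff (c : ℝ) : ContDiff ℝ ∞ (kk c) := by
  unfold kk
  apply ContDiff.mul contDiff_const
  exact expNegInvGlue.contDiff.comp (contDiff_const.sub contDiff_id)

lemma kk_pos {c t : ℝ} (hc : 0 < c) (ht : t < 1) : 0 < kk c t :=
  mul_pos hc (expNegInvGlue.pos_of_pos (by linarith))

lemma kk_zero {c t : ℝ} (ht : 1 ≤ t) : kk c t = 0 := by
  unfold kk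
  rw [expNegInvGlue.zero_of_nonpos (by linarith), mul_zero]

lemma K0_hasDerivAt (c t : ℝ) : HasDerivAt (K0 c) (-(kk c t) / 2) t := by
  have hc : Continuous (kk c) := (kk_contDiff c).continuous
  have h := (intervalIntegral.integral_hasDerivAt_left (hc.intervalIntegrable t 1)
    (hc.stronglyMeasurableAtFilter _ _) hc.continuousAt).const_mul (1 / 2)
  have h2 : HasDerivAt (K0 c) (1 / 2 * -(kk c t)) t := h
  exact h2.congr_deriv (by ring)

lemma K0_contDiff (c : ℝ) : ContDiff ℝ ∞ (K0 c) := by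
  rw [contDiff_infty_iff_deriv]
  refine ⟨fun t => (K0_hasDerivAt c t).differentiableAt, ?_⟩
  have : deriv (K0 c) = fun t => -(kk c t) / 2 := by
    funext t
    exact (K0_hasDerivAt c t).deriv
  rw [this]
  exact (kk_contDiff c).neg.div_const 2

lemma K0_pos {c t : ℝ} (hc : 0 < c) (ht : t < 1) : 0 < K0 c t := by
  unfold K0
  have : 0 < ∫ τ in t..1, kk c τ := by
    apply intervalIntegral.intervalIntegral_pos_of_pos_on
    · exact (kk_contDiff c).continuous.intervalIntegrable t 1
    · intro x hx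
      exact kk_pos hc hx.2
    · exact ht
  positivity

lemma K0_zero {c t : ℝ} (ht : 1 ≤ t) : K0 c t = 0 := by
  unfold K0
  have : ∫ τ in t..1, kk c τ = ∫ τ in t..1, (0 : ℝ) := by
    apply intervalIntegral.integral_congr
    intro x hx
    rw [uIcc_of_ge ht] at hx
    exact kk_zero hx.1
  rw [this]
  simp

/-- the averaging kernel -/
noncomputable def kap0 (c : ℝ) (z : V n) : ℝ := kk c (nsq z)

noncomputable def kp0 (c : ℝ) (z : V n) : ℝ := K0 c (nsq z)

lemma kap0_contDiff (c : ℝ) : ContDiff ℝ ∞ (kap0 (n := n) c) :=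
  (kk_contDiff c).comp nsq_contDiff

lemma kp0_contDiff (c : ℝ) : ContDiff ℝ ∞ (kp0 (n := n) c) :=
  (K0_contDiff c).comp nsq_contDiff

lemma hcs_of_zero {f : V n → ℝ} (h : ∀ z, 1 ≤ nsq z → f z = 0) : HasCompactSupport f := by
  apply HasCompactSupport.intro (isCompact_closedBall (0 : V n) 1)
  intro z hz
  apply h
  rw [mem_closedBall_zero_iff, not_le] at hz
  by_contra h1
  exact absurd (norm_le_one_of_nsq (not_le.1 h1).le) (not_le.2 hz)

lemma kp0_fderiv (c : ℝ) (z v : V n) :
    fderiv ℝ (kp0 (n := n) c) z v = -(kap0 c z) / 2 * fderiv ℝ (nsq (n := n)) z v := by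
  have h := (K0_hasDerivAt c (nsq z)).comp_hasFDerivAt z
    (nsq_hasFDerivAt z)
  have h2 : HasFDerivAt (kp0 (n := n) c) _ z := h
  rw [h2.fderiv, smul_apply, smul_eq_mul]
  rfl

/-- the identity for one radius, globally defined function with compact support -/
lemma one_radius (c : ℝ) {g : V n → ℝ} (hg : ContDiff ℝ 2 g) (y : V n) (s : ℝ) :
    ∫ ζ, kap0 c ζ * fderiv ℝ g (y + s • ζ) ζ
      = 4 * (s * ∫ ζ, kp0 c ζ * ∑ k, lev g (y + s • ζ) (ek k)) := by
  have hK1 : ContDiff ℝ 1 (kp0 (n := n) c) := (kp0_contDiff c).of_le (by exact_mod_cast le_top)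
  have hKcs : HasCompactSupport (kp0 (n := n) c) := hcs_of_zero fun z hz => K0_zero hz
  have hkcs : HasCompactSupport (kap0 (n := n) c) := hcs_of_zero fun z hz => kk_zero hz
  have hkc : Continuous (kap0 (n := n) c) := (kap0_contDiff c).continuous
  have hKc : Continuous (kp0 (n := n) c) := hK1.continuous
  -- the derivatives of `g` in a fixed direction
  have hH : ∀ v : V n, ContDiff ℝ 1 (fun x => fderiv ℝ g x v) := by
    intro v
    exact (hg.fderiv_right (m := 1) (by norm_num)).clm_apply contDiff_const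
  have hG : ∀ v : V n, ContDiff ℝ 1 (fun ζ : V n => fderiv ℝ g (y + s • ζ) v) := by
    intro v
    exact (hH v).comp (contDiff_const.add (contDiff_const_smul s))
  have hGd : ∀ v u ζ : V n, fderiv ℝ (fun ζ : V n => fderiv ℝ g (y + s • ζ) v) ζ u
      = s * fderiv ℝ (fun x => fderiv ℝ g x v) (y + s • ζ) u := by
    intro v u ζ
    have h1 : HasFDerivAt (fun ζ : V n => y + s • ζ) (s • ContinuousLinearMap.id ℝ (V n)) ζ :=
      ((hasFDerivAt_id ζ).const_smul s).const_add y
    have h2 := (((hH v).differentiable one_ne_zero) (y + s • ζ)).hasFDerivAt.comp ζ h1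
    have h3 : HasFDerivAt (fun ζ : V n => fderiv ℝ g (y + s • ζ) v) _ ζ := h2
    rw [h3.fderiv]
    simp [smul_eq_mul]
  -- integration by parts in one direction
  have hparts : ∀ v : V n, ∫ ζ, fderiv ℝ (kp0 (n := n) c) ζ v * fderiv ℝ g (y + s • ζ) v
      = - (s * ∫ ζ, kp0 c ζ * fderiv ℝ (fun x => fderiv ℝ g x v) (y + s • ζ) v) := by
    intro v
    have hc1 : Continuous (fun ζ : V n => fderiv ℝ (kp0 (n := n) c) ζ v) :=
      (hK1.continuous_fderiv one_ne_zero).clm_apply continuous_const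
    have hcs1 : HasCompactSupport (fun ζ : V n => fderiv ℝ (kp0 (n := n) c) ζ v) :=
      hKcs.fderiv_apply ℝ v
    have hc2 : Continuous (fun ζ : V n => fderiv ℝ g (y + s • ζ) v) := (hG v).continuous
    have hc3 : Continuous (fun ζ : V n =>
        fderiv ℝ (fun ζ : V n => fderiv ℝ g (y + s • ζ) v) ζ v) :=
      ((hG v).continuous_fderiv one_ne_zero).clm_apply continuous_const
    have h := integral_mul_fderiv_eq_neg_fderiv_mul_of_integrable (μ := volume)
      (f := kp0 (n := n) c) (g := fun ζ : V n => fderiv ℝ g (y + s • ζ) v) (v := v)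
      ((hc1.mul hc2).integrable_of_hasCompactSupport hcs1.mul_right)
      ((hKc.mul hc3).integrable_of_hasCompactSupport hKcs.mul_right)
      ((hKc.mul hc2).integrable_of_hasCompactSupport hKcs.mul_right)
      (fun x _ => (hK1.differentiable one_ne_zero) x)
      (fun x _ => ((hG v).differentiable one_ne_zero) x)
    rw [eq_neg_iff_add_eq_zero, eq_neg_iff_add_eq_zero.1 ?_]
    rw [← integral_const_mul]
    have e : (fun ζ : V n => s * (kp0 c ζ * fderiv ℝ (fun x => fderiv ℝ g x v) (y + s • ζ) v))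
        = fun ζ : V n => kp0 c ζ * fderiv ℝ (fun ζ : V n => fderiv ℝ g (y + s • ζ) v) ζ v := by
      funext ζ
      rw [hGd]
      ring
    rw [e, h, neg_neg]
  -- expand
  have hexp : ∀ ζ : V n, kap0 c ζ * fderiv ℝ g (y + s • ζ) ζ
      = ∑ k, (-(fderiv ℝ (kp0 (n := n) c) ζ (ek k) * fderiv ℝ g (y + s • ζ) (ek k))
        - fderiv ℝ (kp0 (n := n) c) ζ (Complex.I • ek k) *
          fderiv ℝ g (y + s • ζ) (Complex.I • ek k)) := by
    intro ζ
    rw [apply_decomp (fderiv ℝ g (y + s • ζ)) ζ, Finset.mul_sum]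
    apply Finset.sum_congr rfl
    intro k _
    rw [kp0_fderiv, kp0_fderiv, nsq_fderiv_ek, nsq_fderiv_Iek]
    ring
  have hint : ∀ v : V n, Integrable (fun ζ : V n =>
      fderiv ℝ (kp0 (n := n) c) ζ v * fderiv ℝ g (y + s • ζ) v) := by
    intro v
    have hc1 : Continuous (fun ζ : V n => fderiv ℝ (kp0 (n := n) c) ζ v) :=
      (hK1.continuous_fderiv one_ne_zero).clm_apply continuous_const
    exact (hc1.mul (hG v).continuous).integrable_of_hasCompactSupport
      (hKcs.fderiv_apply ℝ v).mul_right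
  have hint2 : ∀ v : V n, Integrable (fun ζ : V n =>
      kp0 c ζ * fderiv ℝ (fun x => fderiv ℝ g x v) (y + s • ζ) v) := by
    intro v
    have hc3 : Continuous (fun x : V n => fderiv ℝ (fun x => fderiv ℝ g x v) x v) :=
      ((hH v).continuous_fderiv one_ne_zero).clm_apply continuous_const
    have hc4 : Continuous (fun ζ : V n => y + s • ζ) := by fun_prop
    exact (hKc.mul (hc3.comp hc4)).integrable_of_hasCompactSupport hKcs.mul_right
  rw [integral_congr_ae (Filter.Eventually.of_forall hexp), integral_finsetSum]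
  swap
  · intro k _
    exact (hint (ek k)).neg.sub (hint (Complex.I • ek k))
  have hR : ∫ ζ, kp0 c ζ * ∑ k, lev g (y + s • ζ) (ek k)
      = ∑ k, (4 : ℝ)⁻¹ * ((∫ ζ, kp0 c ζ * fderiv ℝ (fun x => fderiv ℝ g x (ek k)) (y + s • ζ) (ek k))
        + ∫ ζ, kp0 c ζ * fderiv ℝ (fun x => fderiv ℝ g x (Complex.I • ek k)) (y + s • ζ)
          (Complex.I • ek k)) := by
    have e : (fun ζ : V n => kp0 c ζ * ∑ k, lev g (y + s • ζ) (ek k)) = fun ζ => ∑ k,
        ((4 : ℝ)⁻¹ * (kp0 c ζ * fderiv ℝ (fun x => fderiv ℝ g x (ek k)) (y + s • ζ) (ek k)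
          + kp0 c ζ * fderiv ℝ (fun x => fderiv ℝ g x (Complex.I • ek k)) (y + s • ζ)
            (Complex.I • ek k))) := by
      funext ζ
      rw [Finset.mul_sum]
      apply Finset.sum_congr rfl
      intro k _
      rw [lev, smul_eq_mul]
      ring
    rw [e, integral_finsetSum]
    · apply Finset.sum_congr rfl
      intro k _
      rw [integral_const_mul, integral_add (hint2 (ek k)) (hint2 (Complex.I • ek k))]
    · intro k _
      exact ((hint2 (ek k)).add (hint2 (Complex.I • ek k))).const_mul _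
  rw [hR, Finset.mul_sum, Finset.mul_sum]
  apply Finset.sum_congr rfl
  intro k _
  have e := integral_sub (hint (ek k)).neg (hint (Complex.I • ek k))
  simp only [Pi.neg_apply] at e
  rw [e, integral_neg, hparts, hparts]
  ring

lemma lev_congr {g g1 : V n → ℝ} {x : V n} (h : g1 =ᶠ[𝓝 x] g) (v : V n) :
    lev g1 x v = lev g x v := by
  have h1 : ∀ u : V n, (fun x => fderiv ℝ g1 x u) =ᶠ[𝓝 x] fun x => fderiv ℝ g x u := by
    intro u
    filter_upwards [h.fderiv (𝕜 := ℝ)] with x hx
    rw [hx]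
  unfold lev
  rw [(h1 v).fderiv_eq, (h1 (Complex.I • v)).fderiv_eq]

/-- a global function with the same germ along a Euclidean ball -/
lemma cutoff {y : V n} {R : ℝ} (hR : 0 ≤ R) {O : Set (V n)} (hO : IsOpen O)
    (hb : Metric.closedBall y R ⊆ O) {g : V n → ℝ} (hg : ContDiffOn ℝ 2 g O) :
    ∃ g1 : V n → ℝ, ContDiff ℝ 2 g1 ∧ HasCompactSupport g1 ∧
      ∀ x, nsq (x - y) ≤ R ^ 2 → g1 =ᶠ[𝓝 x] g := by
  obtain ⟨δ, hδ, hsub⟩ := (isCompact_closedBall y R).exists_cthickening_subset_open hO hb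
  rw [cthickening_closedBall hδ.le hR] at hsub
  set c1 : ℝ := (R + δ) ^ 2 - (R + δ / 2) ^ 2 with hc1
  have hc1p : 0 < c1 := by rw [hc1]; nlinarith
  set ψ : V n → ℝ := fun x => Real.smoothTransition (((R + δ) ^ 2 - nsq (x - y)) / c1) with hψ
  have hψc : ContDiff ℝ 2 ψ := by
    rw [hψ]
    apply Real.smoothTransition.contDiff.comp
    apply ContDiff.div_const
    apply ContDiff.sub contDiff_const
    exact (nsq_contDiff.of_le (by exact_mod_cast le_top)).comp (contDiff_id.sub contDiff_const)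
  have hzero : ∀ x, (R + δ) ^ 2 ≤ nsq (x - y) → ψ x = 0 := by
    intro x hx
    apply Real.smoothTransition.zero_of_nonpos
    apply div_nonpos_of_nonpos_of_nonneg _ hc1p.le
    linarith
  have hone : ∀ x, nsq (x - y) ≤ (R + δ / 2) ^ 2 → ψ x = 1 := by
    intro x hx
    apply Real.smoothTransition.one_of_one_le
    rw [le_div_iff₀ hc1p, one_mul, hc1]
    linarith
  have hnc : Continuous fun x : V n => nsq (x - y) :=
    (nsq_contDiff.continuous).comp (continuous_id.sub continuous_const)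
  have hmem : ∀ x, nsq (x - y) ≤ (R + δ) ^ 2 → x ∈ Metric.closedBall y (δ + R) := by
    intro x hx
    rw [mem_closedBall_iff_norm]
    have h1 := (norm_sq_le_nsq (x - y)).trans hx
    have h2 := (pow_le_pow_iff_left₀ (norm_nonneg _) (by positivity) two_ne_zero).1 h1
    linarith
  refine ⟨fun x => ψ x * g x, ?_, ?_, ?_⟩
  · rw [contDiff_iff_contDiffAt]
    intro x
    by_cases hx : x ∈ O
    · exact hψc.contDiffAt.mul (hg.contDiffAt (hO.mem_nhds hx))
    · have h1 : (R + δ) ^ 2 < nsq (x - y) := by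
        by_contra h
        exact hx (hsub (hmem x (not_lt.1 h)))
      have h2 : (fun x => ψ x * g x) =ᶠ[𝓝 x] fun _ => (0 : ℝ) := by
        filter_upwards [(isOpen_lt continuous_const hnc).mem_nhds h1] with x' hx'
        rw [hzero x' (le_of_lt hx'), zero_mul]
      exact contDiffAt_const.congr_of_eventuallyEq h2
  · apply HasCompactSupport.intro (isCompact_closedBall y (δ + R))
    intro x hx
    have h1 : (R + δ) ^ 2 ≤ nsq (x - y) := by
      by_contra h
      exact hx (hmem x (not_le.1 h).le)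
    rw [hzero x h1, zero_mul]
  · intro x hx
    have h1 : nsq (x - y) < (R + δ / 2) ^ 2 := by nlinarith
    filter_upwards [(isOpen_lt hnc continuous_const).mem_nhds h1] with x' hx'
    rw [hone x' (le_of_lt hx'), one_mul]

lemma kap_rep (c : ℝ) (g : V n → ℝ) (y : V n) (r R : ℝ) (O : Set (V n)) (hO : IsOpen O)
    (hr : 0 ≤ r) (hrR : r ≤ R) (hb : Metric.closedBall y R ⊆ O) (hg : ContDiffOn ℝ 2 g O) :
    ∫ ζ, kap0 c ζ * (g (y + R • ζ) - g (y + r • ζ))
      = 4 * ∫ s in r..R, s * ∫ ζ, kp0 c ζ * ∑ k, lev g (y + s • ζ) (ek k) := by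
  obtain ⟨g1, hg1, hcs, heq⟩ := cutoff (hr.trans hrR) hO hb hg
  have hkc : Continuous (kap0 (n := n) c) := (kap0_contDiff c).continuous
  have hkcs : HasCompactSupport (kap0 (n := n) c) := hcs_of_zero fun z hz => kk_zero hz
  have hnear : ∀ s : ℝ, 0 ≤ s → s ≤ R → ∀ ζ : V n, nsq ζ < 1 → g1 =ᶠ[𝓝 (y + s • ζ)] g := by
    intro s h0 h1 ζ hζ
    apply heq
    rw [add_sub_cancel_left, nsq_smul_real]
    have h2 : s ^ 2 ≤ R ^ 2 := pow_le_pow_left₀ h0 h1 2
    have h3 := nsq_nonneg ζ
    nlinarith [sq_nonneg s]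
  have hfc : Continuous (fderiv ℝ g1) := hg1.continuous_fderiv two_ne_zero
  obtain ⟨C, hC⟩ := (hcs.fderiv (𝕜 := ℝ)).exists_bound_of_continuous hfc
  set F : V n → ℝ → ℝ := fun ζ s => kap0 c ζ * fderiv ℝ g1 (y + s • ζ) ζ with hF
  have hFc : Continuous (Function.uncurry F) := by
    rw [hF]
    apply Continuous.mul
    · exact hkc.comp continuous_fst
    · apply Continuous.clm_apply
      · apply hfc.comp
        exact continuous_const.add (continuous_snd.smul continuous_fst)
      · exact continuous_fst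
  have hC0 : 0 ≤ C := (norm_nonneg _).trans (hC 0)
  have hFint : Integrable (Function.uncurry F) (volume.prod (volume.restrict (Ioc r R))) := by
    have h1 : Integrable (fun z : V n × ℝ => (C * |kap0 c z.1|) * (1 : ℝ))
        (volume.prod (volume.restrict (Ioc r R))) := by
      apply Integrable.mul_prod (f := fun ζ : V n => C * |kap0 c ζ|) (g := fun _ : ℝ => (1 : ℝ))
      · exact (hkc.integrable_of_hasCompactSupport hkcs).abs.const_mul C
      · exact integrable_const _
    apply h1.mono' hFc.aestronglyMeasurable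
    apply Filter.Eventually.of_forall
    rintro ⟨ζ, s⟩
    rw [Function.uncurry_apply_pair, hF, norm_mul, mul_one, Real.norm_eq_abs, mul_comm C]
    by_cases hζ : nsq ζ ≤ 1
    · apply mul_le_mul_of_nonneg_left _ (abs_nonneg _)
      calc ‖fderiv ℝ g1 (y + s • ζ) ζ‖ ≤ ‖fderiv ℝ g1 (y + s • ζ)‖ * ‖ζ‖ :=
            ContinuousLinearMap.le_opNorm _ _
        _ ≤ C * 1 := by
            apply mul_le_mul (hC _) (norm_le_one_of_nsq hζ) (norm_nonneg _) hC0
        _ = C := mul_one C
    · have : kap0 c ζ = 0 := kk_zero (not_le.1 hζ).le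
      rw [this]
      simp
  have e1 : ∀ ζ : V n, kap0 c ζ * (g (y + R • ζ) - g (y + r • ζ)) = ∫ s in Ioc r R, F ζ s := by
    intro ζ
    by_cases hζ : nsq ζ < 1
    · have hd : ∀ s : ℝ, HasDerivAt (fun s : ℝ => g1 (y + s • ζ)) (fderiv ℝ g1 (y + s • ζ) ζ) s := by
        intro s
        have h1 : HasDerivAt (fun s : ℝ => y + s • ζ) ((1 : ℝ) • ζ) s :=
          ((hasDerivAt_id s).smul_const ζ).const_add y
        have h2 := ((hg1.differentiable two_ne_zero) (y + s • ζ)).hasFDerivAt.comp_hasDerivAt s h1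
        rw [one_smul] at h2
        exact h2
      have hcont : Continuous fun s : ℝ => fderiv ℝ g1 (y + s • ζ) ζ := by
        apply Continuous.clm_apply _ continuous_const
        apply hfc.comp
        fun_prop
      have h3 := intervalIntegral.integral_eq_sub_of_hasDerivAt (a := r) (b := R)
        (fun s _ => hd s) (hcont.intervalIntegrable r R)
      rw [(hnear R (hr.trans hrR) le_rfl ζ hζ).eq_of_nhds.symm,
        (hnear r hr hrR ζ hζ).eq_of_nhds.symm, ← h3, intervalIntegral.integral_of_le hrR,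
        ← integral_const_mul]
    · have h0 : kap0 c ζ = 0 := kk_zero (not_lt.1 hζ)
      rw [h0, zero_mul]
      symm
      have : (fun s => F ζ s) = fun _ => (0 : ℝ) := by
        funext s
        rw [hF]
        simp only
        rw [h0, zero_mul]
      rw [this]
      simp
  rw [integral_congr_ae (Filter.Eventually.of_forall e1), integral_integral_swap hFint,
    intervalIntegral.integral_of_le hrR, ← integral_const_mul]
  apply setIntegral_congr_fun measurableSet_Ioc
  intro s hs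
  have h0 : 0 ≤ s := hr.trans hs.1.le
  show ∫ ζ, kap0 c ζ * fderiv ℝ g1 (y + s • ζ) ζ
    = 4 * (s * ∫ ζ, kp0 c ζ * ∑ k, lev g (y + s • ζ) (ek k))
  rw [one_radius c hg1 y s]
  congr 2
  apply integral_congr_ae
  apply Filter.Eventually.of_forall
  intro ζ
  show kp0 c ζ * ∑ k, lev g1 (y + s • ζ) (ek k) = kp0 c ζ * ∑ k, lev g (y + s • ζ) (ek k)
  by_cases hζ : nsq ζ < 1
  · congr 1
    apply Finset.sum_congr rfl
    intro k _
    exact lev_congr (hnear s h0 hs.2 ζ hζ) (ek k)
  · have : kp0 c ζ = 0 := K0_zero (not_lt.1 hζ)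
    rw [this, zero_mul, zero_mul]

theorem t_KER : T_KER := by
  intro n _
  have hcont : Continuous (kap0 (n := n) 1) := (kap0_contDiff 1).continuous
  have hcs : HasCompactSupport (kap0 (n := n) 1) := hcs_of_zero fun z hz => kk_zero hz
  have hpos : 0 < ∫ z : V n, kap0 1 z := by
    apply hcont.integral_pos_of_hasCompactSupport_nonneg_nonzero hcs (x := 0)
    · intro z
      exact mul_nonneg zero_le_one (expNegInvGlue.nonneg _)
    · have : 0 < kap0 (n := n) 1 0 := kk_pos one_pos (by rw [nsq_zero]; exact one_pos)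
      exact this.ne'
  set c : ℝ := (∫ z : V n, kap0 1 z)⁻¹ with hc
  have hcp : 0 < c := inv_pos.2 hpos
  refine ⟨kap0 c, kp0 c, ⟨kap0_contDiff c, kp0_contDiff c⟩,
    fun y hy => ⟨kk_pos hcp hy, K0_pos hcp hy⟩, fun y hy => ⟨kk_zero hy, K0_zero hy⟩, ?_, ?_,
    fun g y r R O hO hr hrR hb hg => kap_rep c g y r R O hO hr hrR hb hg⟩
  · intro a y ha
    unfold kap0 kp0
    rw [nsq_smul, ha, one_pow, one_mul]
    exact ⟨rfl, rfl⟩
  · have : (fun y : V n => kap0 c y) = fun y => c * kap0 1 y := by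
      funext y
      unfold kap0 kk
      ring
    rw [this, integral_const_mul, hc, inv_mul_cancel₀ hpos.ne']

end Pool.Agent.H62.VG
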