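import Mathlib
import Pool.Agent.H95.VG.Targets2
import Pool.Agent.H62.VG.Ker

/-!
# The measure `4 s Kp(ζ) ds dζ` pushed forward by `s ζ`
-/

set_option autoImplicit false

open MeasureTheory Set Filter Topology
open scoped ENNReal NNReal ContDiff ComplexConjugate Convolution

namespace Pool.Agent.H62.VG

open Pool.Agent.H95.VG

variable {n : ℕ}

/-- the product measure -/
noncomputable def mu0 (Kp : V n → ℝ) : Measure (ℝ × V n) :=
  ((volume.restrict (Ioc (0 : ℝ) (1 / 4))).prod volume).withDensity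
    (fun p => ENNReal.ofReal (4 * (p.1 * Kp p.2)))

/-- the measure -/
noncomputable def mu (Kp : V n → ℝ) : Measure (V n) :=
  Measure.map (fun p : ℝ × V n => p.1 • p.2) (mu0 Kp)

section

variable {κ Kp : V n → ℝ} (hK : Ker n κ Kp)

include hK

lemma Kp_cont : Continuous Kp := hK.smooth.2.continuous

lemma kap_cont : Continuous κ := hK.smooth.1.continuous

lemma Kp_hcs : HasCompactSupport Kp := hcs_of_zero fun z hz => (hK.zero z hz).2

lemma kap_hcs : HasCompactSupport κ := hcs_of_zero fun z hz => (hK.zero z hz).1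

lemma Kp_int : Integrable Kp := (Kp_cont hK).integrable_of_hasCompactSupport (Kp_hcs hK)

lemma kap_int : Integrable κ := (kap_cont hK).integrable_of_hasCompactSupport (kap_hcs hK)

lemma Kp_nonneg (y : V n) : 0 ≤ Kp y := by
  by_cases h : nsq y < 1
  · exact (hK.pos y h).2.le
  · rw [(hK.zero y (not_lt.1 h)).2]

lemma kap_nonneg (y : V n) : 0 ≤ κ y := by
  by_cases h : nsq y < 1
  · exact (hK.pos y h).1.le
  · rw [(hK.zero y (not_lt.1 h)).1]

lemma Kp_supp {y : V n} (h : Kp y ≠ 0) : ‖y‖ ≤ 1 := by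
  apply norm_le_one_of_nsq
  by_contra hc
  exact h (hK.zero y (not_le.1 hc).le).2

lemma kap_supp {y : V n} (h : κ y ≠ 0) : ‖y‖ ≤ 1 := by
  apply norm_le_one_of_nsq
  by_contra hc
  exact h (hK.zero y (not_le.1 hc).le).1

lemma dens_int : Integrable (fun p : ℝ × V n => 4 * (p.1 * Kp p.2))
    ((volume.restrict (Ioc (0 : ℝ) (1 / 4))).prod volume) := by
  apply Integrable.const_mul
  have h1 : Integrable (fun s : ℝ => s) (volume.restrict (Ioc (0 : ℝ) (1 / 4))) := by
    have h2 : IntegrableOn (fun s : ℝ => s) (Icc (0 : ℝ) (1 / 4)) :=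
      continuous_id.continuousOn.integrableOn_compact isCompact_Icc
    exact h2.mono_set Ioc_subset_Icc_self
  exact h1.mul_prod (Kp_int hK)

lemma mu0_fin : IsFiniteMeasure (mu0 Kp) := by
  unfold mu0
  exact isFiniteMeasure_withDensity_ofReal (dens_int hK).2

lemma mu_fin : IsFiniteMeasure (mu Kp) := by
  have := mu0_fin hK
  unfold mu
  infer_instance

lemma mu_int {f : V n → ℝ} (hf : Measurable f) {M : ℝ} (hM : ∀ z, |f z| ≤ M) :
    ∫ z, f z ∂(mu Kp) = 4 * ∫ s in (0 : ℝ)..(1 / 4), s * ∫ ζ, Kp ζ * f (s • ζ) := by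
  have hsm : Measurable (fun p : ℝ × V n => p.1 • p.2) := by fun_prop
  have hdm : Measurable (fun p : ℝ × V n => ENNReal.ofReal (4 * (p.1 * Kp p.2))) := by
    have h1 : Continuous (fun p : ℝ × V n => 4 * (p.1 * Kp p.2)) := by
      have := Kp_cont hK
      fun_prop
    exact h1.measurable.ennreal_ofReal
  unfold mu mu0
  rw [integral_map hsm.aemeasurable hf.aestronglyMeasurable,
    integral_withDensity_eq_integral_toReal_smul hdm (Eventually.of_forall fun _ =>
      ENNReal.ofReal_lt_top)]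
  have h2 : ∀ᵐ p ∂((volume.restrict (Ioc (0 : ℝ) (1 / 4))).prod (volume : Measure (V n))),
      (ENNReal.ofReal (4 * (p.1 * Kp p.2))).toReal • f (p.1 • p.2) =
        4 * (p.1 * Kp p.2) * f (p.1 • p.2) := by
    have h3 : ∀ᵐ p ∂((volume.restrict (Ioc (0 : ℝ) (1 / 4))).prod (volume : Measure (V n))),
        0 ≤ p.1 := by
      have h4 : ∀ᵐ s ∂(volume.restrict (Ioc (0 : ℝ) (1 / 4))), 0 ≤ s := by
        filter_upwards [ae_restrict_mem measurableSet_Ioc] with s hs using hs.1.le
      exact Measure.quasiMeasurePreserving_fst.ae h4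
    filter_upwards [h3] with p hp
    rw [ENNReal.toReal_ofReal (mul_nonneg (by norm_num) (mul_nonneg hp (Kp_nonneg hK _))),
      smul_eq_mul]
  rw [integral_congr_ae h2]
  have hi : Integrable (fun p : ℝ × V n => 4 * (p.1 * Kp p.2) * f (p.1 • p.2))
      ((volume.restrict (Ioc (0 : ℝ) (1 / 4))).prod volume) := by
    apply (dens_int hK).mul_bdd (c := M)
    · exact (hf.comp hsm).aestronglyMeasurable
    · exact Eventually.of_forall fun p => hM _
  rw [integral_prod _ hi, intervalIntegral.integral_of_le (by norm_num), ← integral_const_mul]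
  refine integral_congr_ae (Eventually.of_forall fun s => ?_)
  dsimp only
  rw [← mul_assoc, ← integral_const_mul]
  refine integral_congr_ae (Eventually.of_forall fun ζ => ?_)
  dsimp only
  ring

/-- the averaged function is smooth -/
lemma avg_smooth {v : V n → ℝ} (hv : ContDiff ℝ ∞ v) (hc : HasCompactSupport v) :
    ContDiff ℝ ∞ (fun y => ∫ z, v (y - z) ∂(mu Kp)) := by
  have := mu_fin hK
  have h1 : LocallyIntegrable (fun _ : V n => (1 : ℝ)) (mu Kp) :=
    (integrable_const 1).locallyIntegrable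
  have h2 := hc.contDiff_convolution_right (ContinuousLinearMap.lsmul ℝ ℝ) h1
    (n := (⊤ : ℕ∞)) (by exact_mod_cast hv)
  have h3 : (fun y => ∫ z, v (y - z) ∂(mu Kp)) =
      (fun _ : V n => (1 : ℝ)) ⋆[ContinuousLinearMap.lsmul ℝ ℝ, mu Kp] v := by
    funext y
    simp [convolution_def]
  rw [h3]
  exact h2

end

end Pool.Agent.H62.VG
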