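import Mathlib
import Pool.Agent.H95.VG.Targets2
import Pool.Agent.H62.VG.Ker
import Pool.Agent.H62.VG.Mu

/-!
# The weak Gauduchon identity (GW1)
-/

set_option autoImplicit false

open MeasureTheory Set Filter Topology
open scoped ENNReal NNReal ContDiff ComplexConjugate Convolution

namespace Pool.Agent.H62.VG

open Pool.Agent.H95.VG

variable {n : ℕ}

lemma two_le_infty : (2 : ℕ∞ω) ≤ (∞ : ℕ∞ω) := by
  have h : ((2 : ℕ∞) : ℕ∞ω) ≤ ((⊤ : ℕ∞) : ℕ∞ω) := WithTop.coe_le_coe.2 le_top
  exact h

lemma lev_continuousOn {g : V n → ℝ} {O : Set (V n)} (hO : IsOpen O) (hg : ContDiffOn ℝ ∞ g O) :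
    ContinuousOn (fun y => ∑ k, lev g y (ek k)) O := by
  have h1 : ∀ v : V n, ContDiffOn ℝ 1 (fun x => fderiv ℝ g x v) O := by
    intro v
    have hg2 : ContDiffOn ℝ 2 g O := hg.of_le two_le_infty
    have h2 : ContDiffOn ℝ 1 (fderiv ℝ g) O :=
      hg2.fderiv_of_isOpen hO (by rw [one_add_one_eq_two])
    exact h2.clm_apply contDiffOn_const
  have h3 : ∀ v w : V n, ContinuousOn (fun x => fderiv ℝ (fun x => fderiv ℝ g x v) x w) O := by
    intro v w
    have h4 : ContinuousOn (fun x => fderiv ℝ (fun x => fderiv ℝ g x v) x) O :=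
      (h1 v).continuousOn_fderiv_of_isOpen hO le_rfl
    exact h4.clm_apply continuousOn_const
  unfold lev
  apply continuousOn_finsetSum
  intro k _
  exact (((h3 _ _).add (h3 _ _)).const_smul (4 : ℝ)⁻¹)

/-- extension of a continuous function on a closed set -/
lemma extend {Y : Type} [TopologicalSpace Y] [NormalSpace Y] {s : Set Y} (hs : IsClosed s)
    {f : Y → ℝ} (hf : ContinuousOn f s) : ∃ g : Y → ℝ, Continuous g ∧ ∀ x ∈ s, g x = f x := by
  obtain ⟨g, hg⟩ := ContinuousMap.exists_restrict_eq hs ⟨s.domRestrict f,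
    continuousOn_iff_continuous_domRestrict.1 hf⟩
  refine ⟨g, g.continuous, fun x hx => ?_⟩
  exact congrFun (congrArg DFunLike.coe hg) ⟨x, hx⟩

section

variable {κ Kp : V n → ℝ} (hK : Ker n κ Kp)

include hK

/-- integrals against a kernel which vanishes off the unit ball -/
lemma cont_avg {G : V n → ℝ} (hG : Continuous G) :
    Continuous (fun y => ∫ ζ, κ ζ * (G (y + (1 / 4 : ℝ) • ζ) - G y)) := by
  have h1 : ∀ y, ∫ ζ, κ ζ * (G (y + (1 / 4 : ℝ) • ζ) - G y) =
      ∫ ζ in Metric.closedBall (0 : V n) 1, κ ζ * (G (y + (1 / 4 : ℝ) • ζ) - G y) := by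
    intro y
    symm
    apply setIntegral_eq_integral_of_forall_compl_eq_zero
    intro ζ hζ
    have h2 : κ ζ = 0 := by
      by_contra h3
      exact hζ (mem_closedBall_zero_iff.2 (kap_supp hK h3))
    rw [h2, zero_mul]
  simp_rw [h1]
  apply continuous_parametric_integral_of_continuous _ (isCompact_closedBall _ _)
  have := kap_cont hK
  fun_prop

omit hK in
lemma w_nonneg {v : V n → ℝ} (hv : ∀ y, 0 ≤ v y) (y : V n) : 0 ≤ ∫ z, v (y - z) ∂(mu Kp) :=
  integral_nonneg fun _ => hv _

omit hK in
lemma bounded_of_hcs {v : V n → ℝ} (hv : Continuous v) (hc : HasCompactSupport v) :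
    ∃ M, 0 ≤ M ∧ ∀ z, |v z| ≤ M := by
  obtain ⟨M, hM⟩ := hv.bounded_above_of_compact_support hc
  exact ⟨max M 0, le_max_right _ _, fun z => (hM z).trans (le_max_left _ _)⟩

lemma w_formula {v : V n → ℝ} (hv : Continuous v) (hc : HasCompactSupport v) (y : V n) :
    ∫ z, v (y - z) ∂(mu Kp) =
      4 * ∫ s in (0 : ℝ)..(1 / 4), s * ∫ ζ, Kp ζ * v (y - s • ζ) := by
  obtain ⟨M, _, hM⟩ := bounded_of_hcs hv hc
  exact mu_int hK (f := fun z => v (y - z)) (by
    have : Continuous fun z => v (y - z) := by fun_prop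
    exact this.measurable) (fun z => hM _)

lemma w_supp {v : V n → ℝ} (hv : Continuous v) (hc : HasCompactSupport v)
    (h0 : ∀ y, v y ≠ 0 → y ∈ Metric.closedBall (0 : V n) (5 / 4)) (y : V n)
    (hy : y ∉ Metric.closedBall (0 : V n) (3 / 2)) : ∫ z, v (y - z) ∂(mu Kp) = 0 := by
  rw [w_formula hK hv hc]
  have h1 : ∀ s ∈ uIoc (0 : ℝ) (1 / 4), s * ∫ ζ, Kp ζ * v (y - s • ζ) = 0 := by
    intro s hs
    rw [uIoc_of_le (by norm_num)] at hs
    have h2 : ∀ ζ, Kp ζ * v (y - s • ζ) = 0 := by
      intro ζ
      by_cases h3 : Kp ζ = 0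
      · rw [h3, zero_mul]
      · have h4 : v (y - s • ζ) = 0 := by
          by_contra h5
          have h6 := mem_closedBall_zero_iff.1 (h0 _ h5)
          apply hy
          rw [mem_closedBall_zero_iff]
          have h7 : ‖s • ζ‖ ≤ 1 / 4 := by
            rw [norm_smul, Real.norm_of_nonneg hs.1.le]
            calc s * ‖ζ‖ ≤ 1 / 4 * 1 := mul_le_mul hs.2 (Kp_supp hK h3) (norm_nonneg _) (by norm_num)
              _ = 1 / 4 := by norm_num
          calc ‖y‖ = ‖(y - s • ζ) + s • ζ‖ := by rw [sub_add_cancel]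
            _ ≤ ‖y - s • ζ‖ + ‖s • ζ‖ := norm_add_le _ _
            _ ≤ 5 / 4 + 1 / 4 := add_le_add h6 h7
            _ = 3 / 2 := by norm_num
        rw [h4, mul_zero]
    simp [h2]
  rw [intervalIntegral.integral_congr_ae (g := fun _ => (0 : ℝ))
    (Eventually.of_forall fun s hs => h1 s hs)]
  simp

lemma w_pos {v : V n → ℝ} (hv : Continuous v) (hc : HasCompactSupport v) (h0 : ∀ y, 0 ≤ v y)
    (y : V n) (hy : 0 < v y) : 0 < ∫ z, v (y - z) ∂(mu Kp) := by
  rw [w_formula hK hv hc]
  apply mul_pos (by norm_num)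
  have hKc := Kp_cont hK
  have hin : ∀ s : ℝ, ∫ ζ, Kp ζ * v (y - s • ζ) =
      ∫ ζ in Metric.closedBall (0 : V n) 1, Kp ζ * v (y - s • ζ) := by
    intro s
    symm
    apply setIntegral_eq_integral_of_forall_compl_eq_zero
    intro ζ hζ
    have h2 : Kp ζ = 0 := by
      by_contra h3
      exact hζ (mem_closedBall_zero_iff.2 (Kp_supp hK h3))
    rw [h2, zero_mul]
  have hcont : Continuous fun s : ℝ => ∫ ζ, Kp ζ * v (y - s • ζ) := by
    simp_rw [hin]
    apply continuous_parametric_integral_of_continuous _ (isCompact_closedBall _ _)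
    fun_prop
  apply intervalIntegral.intervalIntegral_pos_of_pos_on
  · exact (continuous_id.mul hcont).intervalIntegrable _ _
  · intro s hs
    apply mul_pos hs.1
    have hf : Continuous fun ζ : V n => Kp ζ * v (y - s • ζ) := by fun_prop
    apply hf.integral_pos_of_hasCompactSupport_nonneg_nonzero (x := 0)
    · exact (Kp_hcs hK).mul_right
    · intro ζ
      exact mul_nonneg (Kp_nonneg hK ζ) (h0 _)
    · have h1 := (hK.pos 0 (by rw [nsq_zero]; norm_num)).2
      simp only [smul_zero, sub_zero]
      exact (mul_pos h1 hy).ne'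
  · norm_num

/-- Fubini -/
lemma fub {v L : V n → ℝ} (hv : Continuous v) (hc : HasCompactSupport v) (hL : Measurable L)
    (hLi : Integrable L) {M : ℝ} (hM : ∀ z, |L z| ≤ M) :
    ∫ y, (∫ z, v (y - z) ∂(mu Kp)) * L y = ∫ y, v y * ∫ z, L (y + z) ∂(mu Kp) := by
  have := mu_fin hK
  obtain ⟨M', hM'0, hM'⟩ := bounded_of_hcs hv hc
  have i1 : Integrable (fun p : V n × V n => v (p.1 - p.2) * L p.1) (volume.prod (mu Kp)) := by
    have h1 : Integrable (fun p : V n × V n => L p.1 * (1 : ℝ)) (volume.prod (mu Kp)) :=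
      hLi.mul_prod (integrable_const (1 : ℝ))
    have h2 : Integrable (fun p : V n × V n => v (p.1 - p.2) * (L p.1 * (1 : ℝ)))
        (volume.prod (mu Kp)) := by
      apply h1.bdd_mul (c := M')
      · exact (by fun_prop : Continuous fun p : V n × V n => v (p.1 - p.2)).aestronglyMeasurable
      · exact Eventually.of_forall fun p => hM' _
    simpa using h2
  have i2 : Integrable (fun p : V n × V n => v p.1 * L (p.1 + p.2)) (volume.prod (mu Kp)) := by
    have h1 : Integrable (fun p : V n × V n => v p.1 * (1 : ℝ)) (volume.prod (mu Kp)) :=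
      (hv.integrable_of_hasCompactSupport hc).mul_prod (integrable_const (1 : ℝ))
    have h2 : Integrable (fun p : V n × V n => (v p.1 * (1 : ℝ)) * L (p.1 + p.2))
        (volume.prod (mu Kp)) := by
      apply h1.mul_bdd (c := M)
      · exact (hL.comp (measurable_fst.add measurable_snd)).aestronglyMeasurable
      · exact Eventually.of_forall fun p => hM _
    simpa using h2
  calc ∫ y, (∫ z, v (y - z) ∂(mu Kp)) * L y = ∫ y, ∫ z, v (y - z) * L y ∂(mu Kp) := by
        refine integral_congr_ae (Eventually.of_forall fun y => ?_)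
        dsimp only
        rw [integral_mul_const]
    _ = ∫ z, ∫ y, v (y - z) * L y ∂volume ∂(mu Kp) := integral_integral_swap i1
    _ = ∫ z, ∫ y, v y * L (y + z) ∂volume ∂(mu Kp) := by
        refine integral_congr_ae (Eventually.of_forall fun z => ?_)
        dsimp only
        have h := integral_sub_right_eq_self (fun y : V n => v y * L (y + z)) z (μ := volume)
        rw [← h]
        refine integral_congr_ae (Eventually.of_forall fun y => ?_)
        dsimp only
        rw [sub_add_cancel]
    _ = ∫ y, ∫ z, v y * L (y + z) ∂(mu Kp) := (integral_integral_swap i2).symm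
    _ = ∫ y, v y * ∫ z, L (y + z) ∂(mu Kp) := by
        refine integral_congr_ae (Eventually.of_forall fun y => ?_)
        dsimp only
        rw [integral_const_mul]

/-- the identity in one chart -/
lemma one_chart {g : V n → ℝ} {O : Set (V n)} (hO : IsOpen O)
    (hb : Metric.closedBall (0 : V n) 3 ⊆ O) (hg : ContDiffOn ℝ ∞ g O) {v : V n → ℝ}
    (hv : Continuous v) (hc : HasCompactSupport v)
    (h0 : ∀ y, v y ≠ 0 → y ∈ Metric.closedBall (0 : V n) (5 / 4)) :
    ∫ y, (∫ z, v (y - z) ∂(mu Kp)) * ∑ k, lev g y (ek k) =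
      ∫ y, v y * ∫ ζ, κ ζ * (g (y + (1 / 4 : ℝ) • ζ) - g y) := by
  classical
  set Λ : V n → ℝ := fun y => ∑ k, lev g y (ek k) with hΛ
  have hΛc : ContinuousOn Λ O := lev_continuousOn hO hg
  set B : Set (V n) := Metric.closedBall (0 : V n) 2 with hB
  have hBc : IsCompact B := isCompact_closedBall _ _
  have hBm : MeasurableSet B := Metric.isClosed_closedBall.measurableSet
  have hBO : B ⊆ O := (Metric.closedBall_subset_closedBall (by norm_num)).trans hb
  set L : V n → ℝ := B.indicator Λ with hL
  have hLm : Measurable L := by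
    rw [hL, ← piecewise_eq_indicator]
    exact ContinuousOn.measurable_piecewise (hΛc.mono hBO) continuousOn_const hBm
  obtain ⟨M₀, hM₀⟩ := hBc.exists_bound_of_continuousOn (hΛc.mono hBO)
  have hM : ∀ z, |L z| ≤ max M₀ 0 := by
    intro z
    by_cases hz : z ∈ B
    · rw [hL, indicator_of_mem hz]
      exact (hM₀ z hz).trans (le_max_left _ _)
    · rw [hL, indicator_of_notMem hz, abs_zero]
      exact le_max_right _ _
  have hLi : Integrable L := by
    rw [hL, integrable_indicator_iff hBm]
    exact (hΛc.mono hBO).integrableOn_compact hBc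
  have hLB : ∀ z, ‖z‖ ≤ 2 → L z = Λ z := fun z hz =>
    indicator_of_mem (mem_closedBall_zero_iff.2 hz) _
  calc ∫ y, (∫ z, v (y - z) ∂(mu Kp)) * Λ y = ∫ y, (∫ z, v (y - z) ∂(mu Kp)) * L y := by
        refine integral_congr_ae (Eventually.of_forall fun y => ?_)
        dsimp only
        by_cases hy : y ∈ Metric.closedBall (0 : V n) (3 / 2)
        · rw [hLB y ((mem_closedBall_zero_iff.1 hy).trans (by norm_num))]
        · rw [w_supp hK hv hc h0 y hy, zero_mul, zero_mul]
    _ = ∫ y, v y * ∫ z, L (y + z) ∂(mu Kp) := fub hK hv hc hLm hLi hM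
    _ = ∫ y, v y * ∫ ζ, κ ζ * (g (y + (1 / 4 : ℝ) • ζ) - g y) := by
        refine integral_congr_ae (Eventually.of_forall fun y => ?_)
        dsimp only
        by_cases hy : v y = 0
        · rw [hy, zero_mul, zero_mul]
        · congr 1
          have hy2 := mem_closedBall_zero_iff.1 (h0 y hy)
          rw [mu_int hK (f := fun z => L (y + z)) (hLm.comp (measurable_const.add measurable_id))
            (fun z => hM _)]
          have hrep := hK.rep g y 0 (1 / 4) O hO le_rfl (by norm_num) (by
            intro x hx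
            apply hb
            rw [mem_closedBall_zero_iff]
            rw [mem_closedBall_iff_norm] at hx
            calc ‖x‖ = ‖(x - y) + y‖ := by rw [sub_add_cancel]
              _ ≤ ‖x - y‖ + ‖y‖ := norm_add_le _ _
              _ ≤ 1 / 4 + 5 / 4 := add_le_add hx hy2
              _ ≤ 3 := by norm_num) (hg.of_le two_le_infty)
          simp only [zero_smul, add_zero] at hrep
          rw [hrep]
          congr 1
          apply intervalIntegral.integral_congr_ae
          refine Eventually.of_forall fun s hs => ?_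
          rw [uIoc_of_le (by norm_num)] at hs
          congr 1
          refine integral_congr_ae (Eventually.of_forall fun ζ => ?_)
          dsimp only
          by_cases hζ : Kp ζ = 0
          · rw [hζ, zero_mul, zero_mul]
          · rw [hLB]
            calc ‖y + s • ζ‖ ≤ ‖y‖ + ‖s • ζ‖ := norm_add_le _ _
              _ ≤ 5 / 4 + 1 / 4 := by
                apply add_le_add hy2
                rw [norm_smul, Real.norm_of_nonneg hs.1.le]
                calc s * ‖ζ‖ ≤ 1 / 4 * 1 :=
                      mul_le_mul hs.2 (Kp_supp hK hζ) (norm_nonneg _) (by norm_num)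
                  _ = 1 / 4 := by norm_num
              _ ≤ 2 := by norm_num

end

theorem t_GW1 : T_GW1 := by
  intro n X _ _ _ _ _ ι _ A ρ κ Kp ν v hn hP hK hν hst hvs hv0 hvsupp hvpos hdens
  have hvc : ∀ a, Continuous (v a) := fun a => (hvs a).continuous
  have hvcs : ∀ a, HasCompactSupport (v a) := by
    intro a
    apply HasCompactSupport.intro (isCompact_closedBall (0 : V n) (5 / 4))
    intro z hz
    by_contra h
    exact hz (hvsupp a z h)
  refine ⟨fun a y => ∫ z, v a (y - z) ∂(mu Kp), fun a => avg_smooth hK (hvs a) (hvcs a),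
    fun a y => w_nonneg (hv0 a) y, ?_, ?_, ?_⟩
  · intro a y hy
    by_contra h
    exact hy (w_supp hK (hvc a) (hvcs a) (hvsupp a) y h)
  · intro a y hy
    exact w_pos hK (hvc a) (hvcs a) (hv0 a) y (hvpos a y hy)
  · intro g hg
    -- continuity of `g`
    have hgc : Continuous g := by
      rw [continuous_iff_continuousAt]
      intro x
      obtain ⟨a, ha, _⟩ := A.cover x
      have h1 : ContinuousAt (fun y => g ((A.φ a).symm y)) (A.φ a x) :=
        ((hg a).continuousOn).continuousAt ((A.φ a).open_target.mem_nhds ((A.φ a).map_source ha))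
      have h2 : ContinuousAt (fun x => g ((A.φ a).symm (A.φ a x))) x :=
        ContinuousAt.comp (f := A.φ a) h1 ((A.φ a).continuousAt ha)
      refine h2.congr ?_
      filter_upwards [(A.φ a).open_source.mem_nhds ha] with x' hx'
      rw [(A.φ a).left_inv hx']
    -- the bracket in the chart `a`
    set ga : ι → V n → ℝ := fun a y => g ((A.φ a).symm y) with hga
    have hcl2 : ∀ a, Metric.closedBall (0 : V n) 2 ⊆ (A.φ a).target := fun a =>
      (Metric.closedBall_subset_closedBall (by norm_num)).trans (A.ball a)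
    have hG : ∀ a, ∃ G : V n → ℝ, Continuous G ∧
        ∀ x ∈ Metric.closedBall (0 : V n) 2, G x = ga a x := fun a =>
      extend Metric.isClosed_closedBall ((hg a).continuousOn.mono (hcl2 a))
    choose G hGc hGe using hG
    set Bf : ι → V n → ℝ := fun a y => ∫ ζ, κ ζ * (G a (y + (1 / 4 : ℝ) • ζ) - G a y) with hBf
    have hBc : ∀ a, Continuous (Bf a) := fun a => cont_avg hK (hGc a)
    have hin : ∀ y ζ : V n, ‖y‖ ≤ 5 / 4 → κ ζ ≠ 0 → ‖y + (1 / 4 : ℝ) • ζ‖ ≤ 2 := by
      intro y ζ hy hζ
      have h1 := kap_supp hK hζ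
      calc ‖y + (1 / 4 : ℝ) • ζ‖ ≤ ‖y‖ + ‖(1 / 4 : ℝ) • ζ‖ := norm_add_le _ _
        _ ≤ 5 / 4 + 1 / 4 := by
          apply add_le_add hy
          rw [norm_smul, Real.norm_of_nonneg (by norm_num : (0 : ℝ) ≤ 1 / 4)]
          linarith
        _ ≤ 2 := by norm_num
    have hBe : ∀ a y, ‖y‖ ≤ 5 / 4 →
        Bf a y = ∫ ζ, κ ζ * (ga a (y + (1 / 4 : ℝ) • ζ) - ga a y) := by
      intro a y hy
      refine integral_congr_ae (Eventually.of_forall fun ζ => ?_)
      dsimp only
      by_cases hζ : κ ζ = 0
      · rw [hζ, zero_mul, zero_mul]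
      · rw [hGe a _ (mem_closedBall_zero_iff.2 (hin y ζ hy hζ)),
          hGe a _ (mem_closedBall_zero_iff.2 (hy.trans (by norm_num)))]
    -- transfer to `X`
    set K : ι → Set X := fun a => (A.φ a).symm '' Metric.closedBall (0 : V n) (5 / 4) with hKdef
    have hsub54 : ∀ a, Metric.closedBall (0 : V n) (5 / 4) ⊆ (A.φ a).target := fun a =>
      (Metric.closedBall_subset_closedBall (by norm_num)).trans (A.ball a)
    have hKc : ∀ a, IsClosed (K a) := fun a =>
      ((isCompact_closedBall (0 : V n) (5 / 4)).image_of_continuousOn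
        ((A.φ a).continuousOn_symm.mono (hsub54 a))).isClosed
    have hKs : ∀ a, K a ⊆ (A.φ a).source := by
      rintro a _ ⟨y, hy, rfl⟩
      exact (A.φ a).map_target (hsub54 a hy)
    have hh : ∀ a, ∃ h : X → ℝ, Continuous h ∧ ∀ x ∈ K a, h x = Bf a (A.φ a x) := fun a =>
      extend (hKc a) ((hBc a).comp_continuousOn ((A.φ a).continuousOn.mono (hKs a)))
    choose h hhc hhe using hh
    -- each term
    have hterm : ∀ a, ∫ y, (∫ z, v a (y - z) ∂(mu Kp)) *
        ∑ k, lev (fun y => g ((A.φ a).symm y)) y (ek k) = ∫ x, ρ a x * h a x ∂ν := by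
      intro a
      rw [one_chart hK (A.φ a).open_target (A.ball a) (hg a) (hvc a) (hvcs a) (hvsupp a),
        hdens (h a) (hhc a) a]
      refine integral_congr_ae (Eventually.of_forall fun y => ?_)
      dsimp only
      by_cases hy : v a y = 0
      · rw [hy, zero_mul, zero_mul]
      · have hy2 := hvsupp a y hy
        rw [hhe a _ ⟨y, hy2, rfl⟩, (A.φ a).right_inv (hsub54 a hy2),
          hBe a y (mem_closedBall_zero_iff.1 hy2)]
    -- the sum is `stp g - g`
    have hsum : ∀ x, stp A ρ κ g x = (∑ a, ρ a x * h a x) + g x := by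
      intro x
      have h1 : ∀ a, ρ a x * ∫ ζ, κ ζ * g ((A.φ a).symm (A.φ a x + (1 / 4 : ℝ) • ζ)) =
          ρ a x * h a x + ρ a x * g x := by
        intro a
        by_cases hρ : ρ a x = 0
        · rw [hρ]
          ring
        · obtain ⟨hs, hb⟩ := hP.supp a x hρ
          have hxK : x ∈ K a := ⟨A.φ a x, hb, (A.φ a).left_inv hs⟩
          have hb' := mem_closedBall_zero_iff.1 hb
          rw [hhe a x hxK, ← mul_add]
          congr 1
          have e1 : ∫ ζ, κ ζ * g ((A.φ a).symm (A.φ a x + (1 / 4 : ℝ) • ζ)) =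
              ∫ ζ, κ ζ * G a (A.φ a x + (1 / 4 : ℝ) • ζ) := by
            refine integral_congr_ae (Eventually.of_forall fun ζ => ?_)
            dsimp only
            by_cases hζ : κ ζ = 0
            · rw [hζ, zero_mul, zero_mul]
            · rw [hGe a _ (mem_closedBall_zero_iff.2 (hin _ ζ hb' hζ))]
          have e2 : G a (A.φ a x) = g x := by
            rw [hGe a _ (mem_closedBall_zero_iff.2 (hb'.trans (by norm_num))), hga]
            dsimp only
            rw [(A.φ a).left_inv hs]
          have i1 : Integrable (fun ζ => κ ζ * G a (A.φ a x + (1 / 4 : ℝ) • ζ)) := by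
            have hκc := kap_cont hK
            have hGca := hGc a
            exact (by fun_prop : Continuous fun ζ : V n => κ ζ * G a (A.φ a x + (1 / 4 : ℝ) • ζ)
              ).integrable_of_hasCompactSupport (kap_hcs hK).mul_right
          rw [e1, hBf]
          dsimp only
          simp_rw [mul_sub]
          rw [integral_sub i1 ((kap_int hK).mul_const _), integral_mul_const, hK.one, one_mul, e2]
          ring
      unfold stp
      rw [Finset.sum_congr rfl fun a _ => h1 a, Finset.sum_add_distrib, ← Finset.sum_mul, hP.sum,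
        one_mul]
    have hic : ∀ f : X → ℝ, Continuous f → Integrable f ν := fun f hf =>
      hf.integrable_of_hasCompactSupport (HasCompactSupport.of_compactSpace f)
    have hfin : ∫ x, (∑ a, ρ a x * h a x) ∂ν = 0 := by
      have h1 := hst g hgc
      simp_rw [hsum] at h1
      have i1 : Integrable (fun x => ∑ a, ρ a x * h a x) ν :=
        hic _ (continuous_finsetSum _ fun a _ => (hP.cont a).mul (hhc a))
      rw [integral_add i1 (hic g hgc)] at h1
      linarith
    have i2 : ∀ a ∈ Finset.univ, Integrable (fun x => ρ a x * h a x) ν := fun a _ =>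
      hic _ ((hP.cont a).mul (hhc a))
    rw [integral_finsetSum _ i2] at hfin
    rw [← hfin]
    exact Finset.sum_congr rfl fun a _ => hterm a

end Pool.Agent.H62.VG
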