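import Mathlib
import Pool.Agent.H95.VG.Targets2
import Pool.Agent.H62.VG.Ker
import Pool.Agent.H62.VG.Mu
import Pool.Agent.H62.VG.Gw1

/-!
# Smooth densities (SDN), part 1: the averaged densities in the charts
-/

set_option autoImplicit false

open MeasureTheory Set Filter Topology
open scoped ENNReal NNReal ContDiff ComplexConjugate Convolution

namespace Pool.Agent.H62.VG

open Pool.Agent.H95.VG

variable {n : ℕ}

/-- the density of `ζ / 4` -/
noncomputable def kap4 (κ : V n → ℝ) (ξ : V n) : ℝ :=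
  (4 : ℝ) ^ (Module.finrank ℝ (V n)) * κ ((4 : ℝ) • ξ)

section kap

variable {κ Kp : V n → ℝ} (hK : Ker n κ Kp)

include hK

lemma kap4_smooth : ContDiff ℝ ∞ (kap4 κ) := by
  unfold kap4
  exact contDiff_const.mul (hK.smooth.1.comp (contDiff_id.const_smul (4 : ℝ)))

lemma kap4_cont : Continuous (kap4 κ) := (kap4_smooth hK).continuous

lemma kap4_nonneg (ξ : V n) : 0 ≤ kap4 κ ξ := by
  unfold kap4
  exact mul_nonneg (by positivity) (kap_nonneg hK _)

lemma kap4_zero_pos : 0 < kap4 κ 0 := by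
  unfold kap4
  rw [smul_zero]
  exact mul_pos (by positivity) (hK.pos 0 (by rw [nsq_zero]; norm_num)).1

lemma kap4_supp {ξ : V n} (h : kap4 κ ξ ≠ 0) : ‖ξ‖ ≤ 1 / 4 := by
  unfold kap4 at h
  have h1 := kap_supp hK (right_ne_zero_of_mul h)
  rw [norm_smul, Real.norm_of_nonneg (by norm_num : (0 : ℝ) ≤ 4)] at h1
  linarith

lemma kap4_hcs : HasCompactSupport (kap4 κ) := by
  apply HasCompactSupport.intro (isCompact_closedBall (0 : V n) (1 / 4))
  intro z hz
  by_contra h
  exact hz (mem_closedBall_zero_iff.2 (kap4_supp hK h))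

omit hK in
lemma kap4_cov (L : V n → ℝ) (z : V n) :
    ∫ y, kap4 κ (y - z) * L y = ∫ ζ, κ ζ * L (z + (1 / 4 : ℝ) • ζ) := by
  have h1 : ∀ y : V n, kap4 κ (y - z) * L y = (4 : ℝ) ^ (Module.finrank ℝ (V n)) *
      (fun ζ => κ ζ * L (z + (1 / 4 : ℝ) • ζ)) ((4 : ℝ) • (y - z)) := by
    intro y
    unfold kap4
    dsimp only
    rw [smul_smul]
    norm_num
    ring
  simp_rw [h1]
  rw [integral_const_mul, integral_sub_right_eq_self
    (fun y : V n => (fun ζ => κ ζ * L (z + (1 / 4 : ℝ) • ζ)) ((4 : ℝ) • y)) z,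
    Measure.integral_comp_smul volume (fun ζ => κ ζ * L (z + (1 / 4 : ℝ) • ζ)) (4 : ℝ),
    smul_eq_mul, ← mul_assoc, abs_of_pos (by positivity), mul_inv_cancel₀ (by positivity), one_mul]

end kap

/-- a continuous function with compact support, equal to a given one on a closed ball -/
lemma ext2 {f : V n → ℝ} (hf : ContinuousOn f (Metric.closedBall (0 : V n) 2)) :
    ∃ L : V n → ℝ, Continuous L ∧ HasCompactSupport L ∧
      ∀ x ∈ Metric.closedBall (0 : V n) 2, L x = f x := by
  obtain ⟨G, hG, hGf⟩ := extend Metric.isClosed_closedBall hf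
  obtain ⟨χ, h1, _, h3, _⟩ := exists_continuous_one_zero_of_isCompact
    (isCompact_closedBall (0 : V n) 2) (t := (∅ : Set (V n))) isClosed_empty (disjoint_empty _)
  refine ⟨fun x => χ x * G x, χ.continuous.mul hG, h3.mul_right, fun x hx => ?_⟩
  dsimp only
  rw [h1 hx, Pi.one_apply, one_mul, hGf x hx]

section chart

variable {X : Type} [TopologicalSpace X] [T2Space X] [CompactSpace X]
  [MeasurableSpace X] [BorelSpace X] {ι : Type} [Fintype ι] (A : Atl n X ι)
  {ρ : ι → X → ℝ} {κ Kp : V n → ℝ} (ν : Measure X)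

/-- the support region of `ρ a` -/
def Ka (a : ι) : Set X := (A.φ a).symm '' Metric.closedBall (0 : V n) (5 / 4)

omit [T2Space X] [CompactSpace X] [MeasurableSpace X] [BorelSpace X] [Fintype ι] in
lemma sub_target (a : ι) {r : ℝ} (hr : r ≤ 3) :
    Metric.closedBall (0 : V n) r ⊆ (A.φ a).target :=
  (Metric.closedBall_subset_closedBall hr).trans (A.ball a)

omit [CompactSpace X] [MeasurableSpace X] [BorelSpace X] [Fintype ι] in
lemma closed_image (a : ι) {r : ℝ} (hr : r ≤ 3) :
    IsClosed ((A.φ a).symm '' Metric.closedBall (0 : V n) r) :=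
  ((isCompact_closedBall (0 : V n) r).image_of_continuousOn
    ((A.φ a).continuousOn_symm.mono (sub_target A a hr))).isClosed

omit [CompactSpace X] [MeasurableSpace X] [BorelSpace X] [Fintype ι] in
lemma Ka_closed (a : ι) : IsClosed (Ka A a) := closed_image A a (by norm_num)

omit [T2Space X] [CompactSpace X] [MeasurableSpace X] [BorelSpace X] [Fintype ι] in
lemma Ka_source (a : ι) : Ka A a ⊆ (A.φ a).source := by
  rintro _ ⟨y, hy, rfl⟩
  exact (A.φ a).map_target (sub_target A a (by norm_num) hy)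

variable {A}

omit [T2Space X] [CompactSpace X] [MeasurableSpace X] [BorelSpace X] in
lemma mem_Ka (hP : PU A ρ) {a : ι} {x : X} (h : ρ a x ≠ 0) : x ∈ Ka A a := by
  obtain ⟨h1, h2⟩ := hP.supp a x h
  exact ⟨A.φ a x, h2, (A.φ a).left_inv h1⟩

variable (A)

open scoped Classical in
/-- the chart on the support region -/
noncomputable def Phi (a : ι) (x : X) : V n := if x ∈ Ka A a then A.φ a x else 0

omit [CompactSpace X] [Fintype ι] in
lemma Phi_meas (a : ι) : Measurable (Phi A a) := by
  classical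
  have h1 : Measurable ((Ka A a).piecewise (A.φ a) (fun _ => (0 : V n))) :=
    ContinuousOn.measurable_piecewise ((A.φ a).continuousOn.mono (Ka_source A a))
      continuousOn_const (Ka_closed A a).measurableSet
  have h2 : Phi A a = (Ka A a).piecewise (A.φ a) (fun _ => (0 : V n)) := by
    funext x
    unfold Phi Set.piecewise
    rfl
  rw [h2]
  exact h1

/-- the weighted push forward -/
noncomputable def nua (ρ : ι → X → ℝ) (a : ι) : Measure (V n) :=
  Measure.map (Phi A a) (ν.withDensity fun x => ENNReal.ofReal (ρ a x))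

variable {A} [IsProbabilityMeasure ν]

omit [T2Space X] [IsProbabilityMeasure ν] in
lemma rho_int [IsFiniteMeasure ν] (hP : PU A ρ) (a : ι) : Integrable (ρ a) ν :=
  (hP.cont a).integrable_of_hasCompactSupport (HasCompactSupport.of_compactSpace _)

lemma nua_fin (hP : PU A ρ) (a : ι) : IsFiniteMeasure (nua A ν ρ a) := by
  have : IsFiniteMeasure (ν.withDensity fun x => ENNReal.ofReal (ρ a x)) :=
    isFiniteMeasure_withDensity_ofReal (rho_int ν hP a).2
  unfold nua
  infer_instance

lemma nua_int (hP : PU A ρ) (a : ι) {F : V n → ℝ} (hF : Measurable F) :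
    ∫ z, F z ∂(nua A ν ρ a) = ∫ x, ρ a x * F (A.φ a x) ∂ν := by
  unfold nua
  rw [integral_map (Phi_meas A a).aemeasurable hF.aestronglyMeasurable,
    integral_withDensity_eq_integral_toReal_smul (hP.cont a).measurable.ennreal_ofReal
      (Eventually.of_forall fun _ => ENNReal.ofReal_lt_top)]
  refine integral_congr_ae (Eventually.of_forall fun x => ?_)
  dsimp only
  rw [ENNReal.toReal_ofReal (hP.nonneg a x), smul_eq_mul]
  by_cases h : ρ a x = 0
  · rw [h, zero_mul, zero_mul]
  · unfold Phi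
    rw [if_pos (mem_Ka hP h)]

variable (A)

/-- the averaged density in the chart `a` -/
noncomputable def ua (ρ : ι → X → ℝ) (κ : V n → ℝ) (a : ι) (y : V n) : ℝ :=
  ∫ z, kap4 κ (y - z) ∂(nua A ν ρ a)

variable {A}

lemma ua_eq (hP : PU A ρ) (hK : Ker n κ Kp) (a : ι) (y : V n) :
    ua A ν ρ κ a y = ∫ x, ρ a x * kap4 κ (y - A.φ a x) ∂ν := by
  unfold ua
  rw [nua_int ν hP a (F := fun z => kap4 κ (y - z))]
  have := kap4_cont hK
  exact (by fun_prop : Continuous fun z => kap4 κ (y - z)).measurable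

lemma ua_smooth (hP : PU A ρ) (hK : Ker n κ Kp) (a : ι) : ContDiff ℝ ∞ (ua A ν ρ κ a) := by
  have := nua_fin ν hP a
  have h1 : LocallyIntegrable (fun _ : V n => (1 : ℝ)) (nua A ν ρ a) :=
    (integrable_const 1).locallyIntegrable
  have h2 := (kap4_hcs hK).contDiff_convolution_right (ContinuousLinearMap.lsmul ℝ ℝ) h1
    (n := (⊤ : ℕ∞)) (by exact_mod_cast kap4_smooth hK)
  have h3 : ua A ν ρ κ a =
      (fun _ : V n => (1 : ℝ)) ⋆[ContinuousLinearMap.lsmul ℝ ℝ, nua A ν ρ a] (kap4 κ) := by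
    funext y
    unfold ua
    simp [convolution_def]
  rw [h3]
  exact h2

lemma ua_nonneg (hK : Ker n κ Kp) (a : ι) (y : V n) : 0 ≤ ua A ν ρ κ a y :=
  integral_nonneg fun _ => kap4_nonneg hK _

lemma ua_supp (hP : PU A ρ) (hK : Ker n κ Kp) {a : ι} {y : V n} (h : ua A ν ρ κ a y ≠ 0) :
    y ∈ Metric.closedBall (0 : V n) (3 / 2) := by
  by_contra hy
  apply h
  rw [ua_eq ν hP hK]
  have h1 : ∀ x, ρ a x * kap4 κ (y - A.φ a x) = 0 := by
    intro x
    by_cases h2 : ρ a x = 0
    · rw [h2, zero_mul]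
    · by_cases h3 : kap4 κ (y - A.φ a x) = 0
      · rw [h3, mul_zero]
      · exfalso
        apply hy
        rw [mem_closedBall_zero_iff]
        have h4 := kap4_supp hK h3
        have h5 := mem_closedBall_zero_iff.1 (hP.supp a x h2).2
        calc ‖y‖ = ‖(y - A.φ a x) + A.φ a x‖ := by rw [sub_add_cancel]
          _ ≤ ‖y - A.φ a x‖ + ‖A.φ a x‖ := norm_add_le _ _
          _ ≤ 1 / 4 + 5 / 4 := add_le_add h4 h5
          _ = 3 / 2 := by norm_num
  simp [h1]

/-- Fubini in one chart -/
lemma ua_fub (hP : PU A ρ) (hK : Ker n κ Kp) (a : ι) {L : V n → ℝ} (hL : Continuous L)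
    (hLc : HasCompactSupport L) :
    ∫ y, ua A ν ρ κ a y * L y =
      ∫ x, ρ a x * (∫ ζ, κ ζ * L (A.φ a x + (1 / 4 : ℝ) • ζ)) ∂ν := by
  have := nua_fin ν hP a
  have hk4 := kap4_cont hK
  obtain ⟨M, hM⟩ := hk4.bounded_above_of_compact_support (kap4_hcs hK)
  have i1 : Integrable (fun p : V n × V n => kap4 κ (p.1 - p.2) * L p.1)
      (volume.prod (nua A ν ρ a)) := by
    have h1 : Integrable (fun p : V n × V n => L p.1 * (1 : ℝ)) (volume.prod (nua A ν ρ a)) :=
      (hL.integrable_of_hasCompactSupport hLc).mul_prod (integrable_const (1 : ℝ))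
    have h2 : Integrable (fun p : V n × V n => kap4 κ (p.1 - p.2) * (L p.1 * (1 : ℝ)))
        (volume.prod (nua A ν ρ a)) := by
      apply h1.bdd_mul (c := M)
      · exact (by fun_prop : Continuous fun p : V n × V n => kap4 κ (p.1 - p.2)).aestronglyMeasurable
      · exact Eventually.of_forall fun p => hM _
    simpa using h2
  have hκc := kap_cont hK
  have hcont : Continuous fun z : V n => ∫ ζ, κ ζ * L (z + (1 / 4 : ℝ) • ζ) := by
    have h1 : ∀ z, ∫ ζ, κ ζ * L (z + (1 / 4 : ℝ) • ζ) =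
        ∫ ζ in Metric.closedBall (0 : V n) 1, κ ζ * L (z + (1 / 4 : ℝ) • ζ) := by
      intro z
      symm
      apply setIntegral_eq_integral_of_forall_compl_eq_zero
      intro ζ hζ
      have h2 : κ ζ = 0 := by
        by_contra h3
        exact hζ (mem_closedBall_zero_iff.2 (kap_supp hK h3))
      rw [h2, zero_mul]
    simp_rw [h1]
    apply continuous_parametric_integral_of_continuous _ (isCompact_closedBall _ _)
    fun_prop
  calc ∫ y, ua A ν ρ κ a y * L y = ∫ y, ∫ z, kap4 κ (y - z) * L y ∂(nua A ν ρ a) := by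
        refine integral_congr_ae (Eventually.of_forall fun y => ?_)
        dsimp only
        unfold ua
        rw [integral_mul_const]
    _ = ∫ z, ∫ y, kap4 κ (y - z) * L y ∂volume ∂(nua A ν ρ a) := integral_integral_swap i1
    _ = ∫ z, ∫ ζ, κ ζ * L (z + (1 / 4 : ℝ) • ζ) ∂volume ∂(nua A ν ρ a) := by
        refine integral_congr_ae (Eventually.of_forall fun z => ?_)
        dsimp only
        rw [kap4_cov]
    _ = ∫ x, ρ a x * (∫ ζ, κ ζ * L (A.φ a x + (1 / 4 : ℝ) • ζ)) ∂ν :=
        nua_int ν hP a (F := fun z => ∫ ζ, κ ζ * L (z + (1 / 4 : ℝ) • ζ)) hcont.measurable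

omit [MeasurableSpace X] [BorelSpace X] [T2Space X] [CompactSpace X] [Fintype ι] in
lemma ga_cont (A : Atl n X ι) {g : X → ℝ} (hg : Continuous g) (a : ι) :
    ContinuousOn (fun y => g ((A.φ a).symm y)) (A.φ a).target :=
  hg.comp_continuousOn (A.φ a).continuousOn_symm

/-- the density identity of the averaged densities -/
lemma dens_identity (hP : PU A ρ) (hK : Ker n κ Kp)
    (hst : ∀ g : X → ℝ, Continuous g → ∫ x, stp A ρ κ g x ∂ν = ∫ x, g x ∂ν)
    {g : X → ℝ} (hg : Continuous g) :
    (∀ a, Integrable fun y => ua A ν ρ κ a y * g ((A.φ a).symm y)) ∧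
    ∫ x, g x ∂ν = ∑ a, ∫ y, ua A ν ρ κ a y * g ((A.φ a).symm y) := by
  have hL : ∀ a, ∃ L : V n → ℝ, Continuous L ∧ HasCompactSupport L ∧
      ∀ x ∈ Metric.closedBall (0 : V n) 2, L x = g ((A.φ a).symm x) := fun a =>
    ext2 ((ga_cont A hg a).mono (sub_target A a (by norm_num)))
  choose L hLc hLs hLe using hL
  have he : ∀ a y, ua A ν ρ κ a y * g ((A.φ a).symm y) = ua A ν ρ κ a y * L a y := by
    intro a y
    by_cases h : ua A ν ρ κ a y = 0
    · rw [h, zero_mul, zero_mul]
    · rw [hLe a y (Metric.closedBall_subset_closedBall (by norm_num) (ua_supp ν hP hK h))]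
  constructor
  · intro a
    simp_rw [he a]
    exact ((ua_smooth ν hP hK a).continuous.mul (hLc a)).integrable_of_hasCompactSupport
      (hLs a).mul_left
  · rw [← hst g hg]
    unfold stp
    have h2 : ∀ a x, ρ a x * ∫ ζ, κ ζ * g ((A.φ a).symm (A.φ a x + (1 / 4 : ℝ) • ζ)) =
        ρ a x * ∫ ζ, κ ζ * L a (A.φ a x + (1 / 4 : ℝ) • ζ) := by
      intro a x
      by_cases h : ρ a x = 0
      · rw [h, zero_mul, zero_mul]
      · congr 1
        refine integral_congr_ae (Eventually.of_forall fun ζ => ?_)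
        dsimp only
        by_cases h3 : κ ζ = 0
        · rw [h3, zero_mul, zero_mul]
        · rw [hLe]
          rw [mem_closedBall_zero_iff]
          have h4 := mem_closedBall_zero_iff.1 (hP.supp a x h).2
          calc ‖A.φ a x + (1 / 4 : ℝ) • ζ‖ ≤ ‖A.φ a x‖ + ‖(1 / 4 : ℝ) • ζ‖ := norm_add_le _ _
            _ ≤ 5 / 4 + 1 / 4 := by
              apply add_le_add h4
              rw [norm_smul, Real.norm_of_nonneg (by norm_num : (0 : ℝ) ≤ 1 / 4)]
              linarith [kap_supp hK h3]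
            _ ≤ 2 := by norm_num
    have hκc := kap_cont hK
    have hcont : ∀ a, Continuous fun z : V n => ∫ ζ, κ ζ * L a (z + (1 / 4 : ℝ) • ζ) := by
      intro a
      have hLca := hLc a
      have h1 : ∀ z, ∫ ζ, κ ζ * L a (z + (1 / 4 : ℝ) • ζ) =
          ∫ ζ in Metric.closedBall (0 : V n) 1, κ ζ * L a (z + (1 / 4 : ℝ) • ζ) := by
        intro z
        symm
        apply setIntegral_eq_integral_of_forall_compl_eq_zero
        intro ζ hζ
        have h2 : κ ζ = 0 := by
          by_contra h3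
          exact hζ (mem_closedBall_zero_iff.2 (kap_supp hK h3))
        rw [h2, zero_mul]
      simp_rw [h1]
      apply continuous_parametric_integral_of_continuous _ (isCompact_closedBall _ _)
      fun_prop
    have hi : ∀ a, Integrable (fun x => ρ a x * ∫ ζ, κ ζ * L a (A.φ a x + (1 / 4 : ℝ) • ζ)) ν := by
      intro a
      obtain ⟨M, hM⟩ : ∃ M, ∀ z ∈ Metric.closedBall (0 : V n) (5 / 4),
          ‖∫ ζ, κ ζ * L a (z + (1 / 4 : ℝ) • ζ)‖ ≤ M :=
        (isCompact_closedBall (0 : V n) (5 / 4)).exists_bound_of_continuousOn (hcont a).continuousOn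
      have h5 : (fun x => ρ a x * ∫ ζ, κ ζ * L a (A.φ a x + (1 / 4 : ℝ) • ζ)) =
          fun x => ρ a x * ∫ ζ, κ ζ * L a (Phi A a x + (1 / 4 : ℝ) • ζ) := by
        funext x
        by_cases h : ρ a x = 0
        · rw [h, zero_mul, zero_mul]
        · unfold Phi
          rw [if_pos (mem_Ka hP h)]
      rw [h5]
      apply (rho_int ν hP a).mul_bdd (c := M)
      · exact ((hcont a).measurable.comp (Phi_meas A a)).aestronglyMeasurable
      · refine Eventually.of_forall fun x => hM _ ?_
        unfold Phi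
        split_ifs with h6
        · obtain ⟨y, hy, rfl⟩ := h6
          rw [(A.φ a).right_inv (sub_target A a (by norm_num) hy)]
          exact hy
        · rw [mem_closedBall_zero_iff, norm_zero]
          norm_num
    simp_rw [h2]
    rw [integral_finsetSum _ fun a _ => hi a]
    refine Finset.sum_congr rfl fun a _ => ?_
    rw [← ua_fub ν hP hK a (hLc a) (hLs a)]
    simp_rw [he a]

end chart

end Pool.Agent.H62.VG
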