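import Mathlib
import Pool.Agent.H62.VG.Sdn1
import Pool.Agent.H65.VG.ARE
import Pool.Agent.H65.VG.SMO

/-!
# Smooth densities (SDN), part 2: change of charts
-/

set_option autoImplicit false

open MeasureTheory Set Filter Topology
open scoped ENNReal NNReal ContDiff ComplexConjugate Convolution

namespace Pool.Agent.H62.VG

open Pool.Agent.H95.VG

variable {n : ℕ}

lemma jac_det_hol {O : Set (V n)} {Y : V n → V n} (hO : IsOpen O) (hY : DifferentiableOn ℂ Y O) :
    DifferentiableOn ℂ (fun z => (jac Y z).det) O := by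
  have h1 : ∀ i j, DifferentiableOn ℂ (fun z => jac Y z i j) O := by
    intro i j
    have h2 : DifferentiableOn ℂ (fun z => fderiv ℂ Y z (ek j)) O :=
      (Pool.Agent.H65.VG.smo n (V n) O Y hO hY).2.2 (ek j)
    exact (differentiableOn_pi.1 h2) i
  simp only [Matrix.det_apply]
  apply DifferentiableOn.fun_sum
  intro σ _
  apply DifferentiableOn.const_smul
  intro z hz
  exact (HasFDerivWithinAt.finsetProd (u := Finset.univ)
    (fun i _ => (h1 (σ i) i z hz).hasFDerivWithinAt)).differentiableWithinAt

lemma jac_det_smooth {O : Set (V n)} {Y : V n → V n} (hO : IsOpen O)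
    (hY : DifferentiableOn ℂ Y O) : ContDiffOn ℝ ∞ (fun z => ‖(jac Y z).det‖ ^ 2) O :=
  ((Pool.Agent.H65.VG.smo n ℂ O _ hO (jac_det_hol hO hY)).2.1).norm_sq ℝ

section chart

variable {X : Type} [TopologicalSpace X] {ι : Type} (A : Atl n X ι)

/-- the overlap in the chart `b` -/
def Wab (b a : ι) : Set (V n) := ((A.φ b).symm.trans (A.φ a)).source

/-- the transition map from the chart `b` to the chart `a` -/
noncomputable def tau (b a : ι) (y : V n) : V n := A.φ a ((A.φ b).symm y)

lemma Wab_open (b a : ι) : IsOpen (Wab A b a) := ((A.φ b).symm.trans (A.φ a)).open_source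

lemma mem_Wab (b a : ι) (y : V n) :
    y ∈ Wab A b a ↔ y ∈ (A.φ b).target ∧ (A.φ b).symm y ∈ (A.φ a).source := by
  unfold Wab
  rw [OpenPartialHomeomorph.trans_source]
  rfl

lemma tau_hol (b a : ι) : DifferentiableOn ℂ (tau A b a) (Wab A b a) := A.hol b a

lemma tau_inj (b a : ι) : InjOn (tau A b a) (Wab A b a) :=
  ((A.φ b).symm.trans (A.φ a)).injOn

lemma tau_image (b a : ι) : tau A b a '' Wab A b a = Wab A a b := by
  ext y
  constructor
  · rintro ⟨z, hz, rfl⟩
    rw [mem_Wab] at hz ⊢
    unfold tau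
    refine ⟨(A.φ a).map_source hz.2, ?_⟩
    rw [(A.φ a).left_inv hz.2]
    exact (A.φ b).map_target hz.1
  · intro hy
    rw [mem_Wab] at hy
    refine ⟨A.φ b ((A.φ a).symm y), ?_, ?_⟩
    · rw [mem_Wab]
      refine ⟨(A.φ b).map_source hy.2, ?_⟩
      rw [(A.φ b).left_inv hy.2]
      exact (A.φ a).map_target hy.1
    · unfold tau
      rw [(A.φ b).left_inv hy.2, (A.φ a).right_inv hy.1]

/-- the Jacobian factor -/
noncomputable def jd (b a : ι) (y : V n) : ℝ := ‖(jac (tau A b a) y).det‖ ^ 2

lemma jd_smooth (b a : ι) : ContDiffOn ℝ ∞ (jd A b a) (Wab A b a) :=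
  jac_det_smooth (Wab_open A b a) (tau_hol A b a)

lemma jd_pos {b a : ι} {y : V n} (hy : y ∈ Wab A b a) : 0 < jd A b a y := by
  unfold jd
  have h1 : DifferentiableAt ℂ (tau A b a) y :=
    (tau_hol A b a).differentiableAt ((Wab_open A b a).mem_nhds hy)
  have hy2 : tau A b a y ∈ Wab A a b := by
    rw [← tau_image]
    exact ⟨y, hy, rfl⟩
  have h2 : DifferentiableAt ℂ (tau A a b) (tau A b a y) :=
    (tau_hol A a b).differentiableAt ((Wab_open A a b).mem_nhds hy2)
  have h3 : (fun z => tau A a b (tau A b a z)) =ᶠ[𝓝 y] id := by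
    filter_upwards [(Wab_open A b a).mem_nhds hy] with z hz
    rw [mem_Wab] at hz
    unfold tau
    rw [(A.φ a).left_inv hz.2, (A.φ b).right_inv hz.1]
    rfl
  have h4 : (fderiv ℂ (tau A a b) (tau A b a y)).comp (fderiv ℂ (tau A b a) y) =
      ContinuousLinearMap.id ℂ (V n) := by
    have h5 := (h2.hasFDerivAt.comp y h1.hasFDerivAt).fderiv
    have h6 : fderiv ℂ (tau A a b ∘ tau A b a) y = fderiv ℂ id y := Filter.EventuallyEq.fderiv_eq h3
    rw [← h5, h6, fderiv_id]
  have h7 : (fderiv ℂ (tau A b a) y).det ≠ 0 := by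
    intro h0
    have h8 := congrArg (fun L : V n →L[ℂ] V n => LinearMap.det (L : V n →ₗ[ℂ] V n)) h4
    rw [ContinuousLinearMap.toLinearMap_comp, LinearMap.det_comp] at h8
    have h9 : LinearMap.det ((fderiv ℂ (tau A b a) y : V n →L[ℂ] V n) : V n →ₗ[ℂ] V n) = 0 := h0
    rw [h9, mul_zero] at h8
    simp at h8
  have h10 : (jac (tau A b a) y).det ≠ 0 := by
    rw [Pool.Agent.H65.VG.det_jac_eq]
    exact h7
  have := norm_pos_iff.2 h10
  positivity

/-- change of charts in an integral -/
lemma cov (b a : ι) (F : V n → ℝ) :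
    ∫ y in Wab A a b, F y = ∫ z in Wab A b a, jd A b a z * F (tau A b a z) := by
  rw [← tau_image A b a, integral_image_eq_integral_abs_det_fderiv_smul volume
    (Wab_open A b a).measurableSet (f' := fun z => fderiv ℝ (tau A b a) z) ?_ (tau_inj A b a)]
  · refine setIntegral_congr_fun (Wab_open A b a).measurableSet fun z hz => ?_
    have h1 : DifferentiableAt ℂ (tau A b a) z :=
      (tau_hol A b a).differentiableAt ((Wab_open A b a).mem_nhds hz)
    rw [Pool.Agent.H65.VG.det_real h1, abs_of_nonneg (by positivity), smul_eq_mul]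
    rfl
  · intro z hz
    have h1 : DifferentiableAt ℂ (tau A b a) z :=
      (tau_hol A b a).differentiableAt ((Wab_open A b a).mem_nhds hz)
    exact (h1.restrictScalars ℝ).hasFDerivAt.hasFDerivWithinAt

open scoped Classical in
/-- the density of the part `a` in the chart `b` -/
noncomputable def vab (ρ : ι → X → ℝ) (u : ι → V n → ℝ) (b a : ι) (y : V n) : ℝ :=
  if y ∈ Wab A b a then ρ b ((A.φ b).symm y) * (jd A b a y * u a (tau A b a y)) else 0

variable {A} [Fintype ι] {ρ : ι → X → ℝ} {u : ι → V n → ℝ}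

lemma vab_supp (hP : PU A ρ) {b a : ι} {y : V n} (h : vab A ρ u b a y ≠ 0) :
    y ∈ Metric.closedBall (0 : V n) (5 / 4) := by
  unfold vab at h
  split_ifs at h with h1
  · rw [mem_Wab] at h1
    have h2 := (hP.supp b _ (left_ne_zero_of_mul h)).2
    rwa [(A.φ b).right_inv h1.1] at h2
  · exact absurd rfl h

lemma vab_nonneg (hP : PU A ρ) (hu : ∀ a y, 0 ≤ u a y) (b a : ι) (y : V n) :
    0 ≤ vab A ρ u b a y := by
  unfold vab
  split_ifs
  · exact mul_nonneg (hP.nonneg _ _) (mul_nonneg (by unfold jd; positivity) (hu _ _))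
  · exact le_rfl

lemma vab_smooth [T2Space X] (hP : PU A ρ) (hus : ∀ a, ContDiff ℝ ∞ (u a))
    (hu : ∀ a y, u a y ≠ 0 → y ∈ Metric.closedBall (0 : V n) (3 / 2)) (b a : ι) :
    ContDiff ℝ ∞ (vab A ρ u b a) := by
  rw [contDiff_iff_contDiffAt]
  intro y
  by_cases h1 : y ∈ Wab A b a
  · -- in the overlap
    have h2 : vab A ρ u b a =ᶠ[𝓝 y] fun z =>
        ρ b ((A.φ b).symm z) * (jd A b a z * u a (tau A b a z)) := by
      filter_upwards [(Wab_open A b a).mem_nhds h1] with z hz
      unfold vab
      rw [if_pos hz]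
    refine ContDiffAt.congr_of_eventuallyEq ?_ h2
    have hW := (Wab_open A b a).mem_nhds h1
    have h3 : ContDiffAt ℝ ∞ (fun z => ρ b ((A.φ b).symm z)) y :=
      (hP.smooth b b).contDiffAt ((A.φ b).open_target.mem_nhds ((mem_Wab A b a y).1 h1).1)
    have h4 : ContDiffAt ℝ ∞ (jd A b a) y := (jd_smooth A b a).contDiffAt hW
    have h5 : ContDiffAt ℝ ∞ (tau A b a) y :=
      ((Pool.Agent.H65.VG.smo n (V n) _ _ (Wab_open A b a) (tau_hol A b a)).2.1).contDiffAt hW
    exact h3.mul (h4.mul ((hus a).contDiffAt.comp y h5))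
  · -- zero nearby
    have h2 : vab A ρ u b a =ᶠ[𝓝 y] fun _ => 0 := by
      by_cases h3 : y ∈ (A.φ b).target
      · have h4 : (A.φ b).symm y ∉ (A.φ a).symm '' Metric.closedBall (0 : V n) (3 / 2) := by
          rintro ⟨z, hz, hzy⟩
          apply h1
          rw [mem_Wab]
          refine ⟨h3, ?_⟩
          rw [← hzy]
          exact (A.φ a).map_target (sub_target A a (by norm_num) hz)
        have h5 : ∀ᶠ z in 𝓝 y, (A.φ b).symm z ∉
            (A.φ a).symm '' Metric.closedBall (0 : V n) (3 / 2) := by
          have h6 : ContinuousAt (A.φ b).symm y := (A.φ b).continuousAt_symm h3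
          exact h6.eventually ((closed_image A a (by norm_num)).isOpen_compl.mem_nhds h4)
        filter_upwards [h5] with z hz
        unfold vab
        split_ifs with h7
        · rw [mem_Wab] at h7
          have h8 : u a (tau A b a z) = 0 := by
            by_contra h9
            apply hz
            refine ⟨tau A b a z, hu a _ h9, ?_⟩
            unfold tau
            rw [(A.φ a).left_inv h7.2]
          rw [h8, mul_zero, mul_zero]
        · rfl
      · have h4 : y ∉ Metric.closedBall (0 : V n) (5 / 4) := fun h5 =>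
          h3 (sub_target A b (by norm_num) h5)
        filter_upwards [Metric.isClosed_closedBall.isOpen_compl.mem_nhds h4] with z hz
        by_contra h6
        exact hz (vab_supp hP h6)
    exact contDiffAt_const.congr_of_eventuallyEq h2

/-- the change of charts for the densities -/
lemma vab_int (hP : PU A ρ)
    (hu : ∀ a y, u a y ≠ 0 → y ∈ Metric.closedBall (0 : V n) (3 / 2)) (b a : ι) (g : X → ℝ) :
    ∫ y, u a y * (ρ b ((A.φ a).symm y) * g ((A.φ a).symm y)) =
      ∫ z, vab A ρ u b a z * g ((A.φ b).symm z) := by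
  have h1 : ∫ y, u a y * (ρ b ((A.φ a).symm y) * g ((A.φ a).symm y)) =
      ∫ y in Wab A a b, u a y * (ρ b ((A.φ a).symm y) * g ((A.φ a).symm y)) := by
    symm
    apply setIntegral_eq_integral_of_forall_compl_eq_zero
    intro y hy
    by_cases h2 : u a y = 0
    · rw [h2, zero_mul]
    · by_cases h3 : ρ b ((A.φ a).symm y) = 0
      · rw [h3, zero_mul, mul_zero]
      · exfalso
        apply hy
        rw [mem_Wab]
        exact ⟨sub_target A a (by norm_num) (hu a y h2), (hP.supp b _ h3).1⟩
  have h2 : ∫ z, vab A ρ u b a z * g ((A.φ b).symm z) =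
      ∫ z in Wab A b a, vab A ρ u b a z * g ((A.φ b).symm z) := by
    symm
    apply setIntegral_eq_integral_of_forall_compl_eq_zero
    intro z hz
    unfold vab
    rw [if_neg hz, zero_mul]
  rw [h1, h2, cov A b a]
  refine setIntegral_congr_fun (Wab_open A b a).measurableSet fun z hz => ?_
  unfold vab
  rw [if_pos hz]
  have h3 := (mem_Wab A b a z).1 hz
  have h4 : (A.φ a).symm (tau A b a z) = (A.φ b).symm z := by
    unfold tau
    rw [(A.φ a).left_inv h3.2]
  rw [h4]
  ring

end chart

theorem t_SDN : T_SDN := by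
  intro n X _ _ _ _ _ _ ι _ A ρ κ Kp ν hn hP hK hν hst
  set u : ι → V n → ℝ := ua A ν ρ κ with hu
  have hus : ∀ a, ContDiff ℝ ∞ (u a) := fun a => ua_smooth ν hP hK a
  have hu0 : ∀ a y, 0 ≤ u a y := fun a y => ua_nonneg ν hK a y
  have husupp : ∀ a y, u a y ≠ 0 → y ∈ Metric.closedBall (0 : V n) (3 / 2) :=
    fun a y h => ua_supp ν hP hK h
  have hid := fun (g : X → ℝ) (hg : Continuous g) => dens_identity ν hP hK hst hg
  -- the positive set is everything
  set P : Set X := {x | ∃ a, x ∈ (A.φ a).source ∧ 0 < u a (A.φ a x)} with hPdef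
  have hPo : IsOpen P := by
    have h1 : P = ⋃ a, (A.φ a).source ∩ (A.φ a) ⁻¹' {y | 0 < u a y} := by
      ext x
      simp [hPdef]
    rw [h1]
    refine isOpen_iUnion fun a => ?_
    exact (A.φ a).isOpen_inter_preimage (isOpen_lt continuous_const (hus a).continuous)
  have hPc : IsClosed P := by
    rw [← isOpen_compl_iff, isOpen_iff_mem_nhds]
    intro x hx
    obtain ⟨a, ha⟩ : ∃ a, 0 < ρ a x := by
      by_contra h
      push Not at h
      have h1 := hP.sum x
      have h2 : ∑ a, ρ a x = 0 :=
        Finset.sum_eq_zero fun a _ => le_antisymm (h a) (hP.nonneg a x)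
      linarith
    have hxs : x ∈ (A.φ a).source := (hP.supp a x ha.ne').1
    -- the test function
    set g : X → ℝ := fun x' => ρ a x' * kap4 κ (A.φ a x - A.φ a x') with hg
    have hgc : Continuous g := by
      rw [continuous_iff_continuousAt]
      intro x'
      by_cases h1 : x' ∈ (A.φ a).source
      · have h2 : ContinuousAt (fun x' => kap4 κ (A.φ a x - A.φ a x')) x' := by
          have h3 : ContinuousAt (A.φ a) x' := (A.φ a).continuousAt h1
          exact ContinuousAt.comp (f := fun x' => A.φ a x - A.φ a x') (g := kap4 κ)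
            (kap4_cont hK).continuousAt (continuousAt_const.sub h3)
        exact (hP.cont a).continuousAt.mul h2
      · have h2 : x' ∉ Ka A a := fun h3 => h1 (Ka_source A a h3)
        have h3 : g =ᶠ[𝓝 x'] fun _ => 0 := by
          filter_upwards [(Ka_closed A a).isOpen_compl.mem_nhds h2] with z hz
          have h4 : ρ a z = 0 := by
            by_contra h5
            exact hz (mem_Ka hP h5)
          simp only [hg, h4, zero_mul]
        exact continuousAt_const.congr h3.symm
    have hg0 : ∀ x', 0 ≤ g x' := fun x' => mul_nonneg (hP.nonneg a x') (kap4_nonneg hK _)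
    have hgx : 0 < g x := by
      simp only [hg, sub_self]
      exact mul_pos ha (kap4_zero_pos hK)
    have hux : u a (A.φ a x) = 0 := by
      by_contra h
      exact hx ⟨a, hxs, lt_of_le_of_ne (hu0 _ _) (Ne.symm h)⟩
    have hgi : ∫ x', g x' ∂ν = 0 := by
      rw [← hux, hu, ua_eq ν hP hK]
    obtain ⟨i1, i2⟩ := hid g hgc
    rw [hgi] at i2
    have hterm : ∀ c, ∫ y, ua A ν ρ κ c y * g ((A.φ c).symm y) = 0 := by
      have h1 := (Finset.sum_eq_zero_iff_of_nonneg (fun c _ =>
        integral_nonneg fun y => mul_nonneg (hu0 c y) (hg0 _))).1 i2.symm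
      exact fun c => h1 c (Finset.mem_univ c)
    have hnb : {x' | 0 < g x'} ∈ 𝓝 x := (isOpen_lt continuous_const hgc).mem_nhds hgx
    filter_upwards [hnb] with z hz
    rintro ⟨c, hzc, hzu⟩
    have hz' : 0 < g z := hz
    -- the integrand is continuous with compact support
    have hcs : HasCompactSupport (fun y => ua A ν ρ κ c y * g ((A.φ c).symm y)) := by
      apply HasCompactSupport.intro (isCompact_closedBall (0 : V n) (3 / 2))
      intro y hy
      have h1 : ua A ν ρ κ c y = 0 := by
        by_contra h2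
        exact hy (husupp c y h2)
      rw [h1, zero_mul]
    have hcc : Continuous (fun y => ua A ν ρ κ c y * g ((A.φ c).symm y)) := by
      rw [continuous_iff_continuousAt]
      intro y
      by_cases h1 : y ∈ (A.φ c).target
      · have h2 : ContinuousAt (fun y => g ((A.φ c).symm y)) y :=
          ContinuousAt.comp (f := (A.φ c).symm) (g := g) hgc.continuousAt
            ((A.φ c).continuousAt_symm h1)
        exact ((hus c).continuous.continuousAt).mul h2
      · have h2 : y ∉ Metric.closedBall (0 : V n) (3 / 2) := fun h3 =>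
          h1 (sub_target A c (by norm_num) h3)
        have h3 : (fun y => ua A ν ρ κ c y * g ((A.φ c).symm y)) =ᶠ[𝓝 y] fun _ => 0 := by
          filter_upwards [Metric.isClosed_closedBall.isOpen_compl.mem_nhds h2] with w hw
          have h1 : ua A ν ρ κ c w = 0 := by
            by_contra h2
            exact hw (husupp c w h2)
          rw [h1, zero_mul]
        exact continuousAt_const.congr h3.symm
    have hpos : 0 < ∫ y, ua A ν ρ κ c y * g ((A.φ c).symm y) := by
      apply hcc.integral_pos_of_hasCompactSupport_nonneg_nonzero hcs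
        (x := A.φ c z) (fun y => mul_nonneg (hu0 c y) (hg0 _))
      rw [(A.φ c).left_inv hzc]
      exact (mul_pos hzu hz').ne'
    rw [hterm c] at hpos
    exact lt_irrefl _ hpos
  have hPne : P.Nonempty := by
    by_contra h
    rw [not_nonempty_iff_eq_empty] at h
    obtain ⟨_, i2⟩ := hid (fun _ => 1) continuous_const
    have h1 : ∀ a, ∫ y, ua A ν ρ κ a y * (fun _ : X => (1 : ℝ)) ((A.φ a).symm y) = 0 := by
      intro a
      have h2 : ∀ y, ua A ν ρ κ a y = 0 := by
        intro y
        by_contra h3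
        have h4 := husupp a y h3
        have h5 : (A.φ a).symm y ∈ P := by
          refine ⟨a, (A.φ a).map_target (sub_target A a (by norm_num) h4), ?_⟩
          rw [(A.φ a).right_inv (sub_target A a (by norm_num) h4)]
          exact lt_of_le_of_ne (hu0 _ _) (Ne.symm h3)
        rw [h] at h5
        exact h5
      simp [h2]
    rw [Finset.sum_congr rfl fun a _ => h1 a] at i2
    simp at i2
  have hPu : P = univ := IsClopen.eq_univ ⟨hPc, hPo⟩ hPne
  -- the densities
  refine ⟨fun b y => ∑ a, vab A ρ u b a y, ?_, ?_, ?_, ?_, ?_⟩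
  · intro b
    exact ContDiff.sum fun a _ => vab_smooth hP hus husupp b a
  · intro b y
    exact Finset.sum_nonneg fun a _ => vab_nonneg hP hu0 b a y
  · intro b y h
    by_contra h1
    apply h
    refine Finset.sum_eq_zero fun a _ => ?_
    by_contra h2
    exact h1 (vab_supp hP h2)
  · intro b y hy
    have hyt : y ∈ (A.φ b).target := sub_target A b (by norm_num) hy
    have hxs : (A.φ b).symm y ∈ (A.φ b).source := (A.φ b).map_target hyt
    have hxP : (A.φ b).symm y ∈ P := by
      rw [hPu]
      exact mem_univ _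
    obtain ⟨a, ha1, ha2⟩ := hxP
    apply Finset.sum_pos' (fun a _ => vab_nonneg hP hu0 b a y)
    refine ⟨a, Finset.mem_univ a, ?_⟩
    have hW : y ∈ Wab A b a := by
      rw [mem_Wab]
      exact ⟨hyt, ha1⟩
    unfold vab
    rw [if_pos hW]
    have hρ : 0 < ρ b ((A.φ b).symm y) := by
      apply hP.pos b _ hxs
      rw [(A.φ b).right_inv hyt]
      exact hy
    exact mul_pos hρ (mul_pos (jd_pos A hW) ha2)
  · intro g hg b
    obtain ⟨_, i2⟩ := hid (fun x => ρ b x * g x) ((hP.cont b).mul hg)
    rw [i2]
    have h1 : ∀ a, ∫ y, ua A ν ρ κ a y * (ρ b ((A.φ a).symm y) * g ((A.φ a).symm y)) =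
        ∫ z, vab A ρ u b a z * g ((A.φ b).symm z) := fun a => vab_int hP husupp b a g
    rw [Finset.sum_congr rfl fun a _ => h1 a]
    obtain ⟨L, hLc, hLs, hLe⟩ := ext2 ((ga_cont A hg b).mono (sub_target A b (by norm_num)))
    have h2 : ∀ a z, vab A ρ u b a z * g ((A.φ b).symm z) = vab A ρ u b a z * L z := by
      intro a z
      by_cases h : vab A ρ u b a z = 0
      · rw [h, zero_mul, zero_mul]
      · rw [hLe z (Metric.closedBall_subset_closedBall (by norm_num) (vab_supp hP h))]
    have h3 : ∀ a, Integrable (fun z => vab A ρ u b a z * g ((A.φ b).symm z)) := by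
      intro a
      simp_rw [h2 a]
      exact ((vab_smooth hP hus husupp b a).continuous.mul hLc).integrable_of_hasCompactSupport
        hLs.mul_left
    rw [← integral_finsetSum _ fun a _ => h3 a]
    refine integral_congr_ae (Eventually.of_forall fun y => ?_)
    dsimp only
    rw [Finset.sum_mul]

end Pool.Agent.H62.VG
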